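import Pool.Agent.Work.MP_2738db_nt_U_helper85.STEP

/-!
MP_2738db_nt, Theorem Z: large prime exponents are excluded if a number `B` with a large valuation
at a small prime takes the place of a power of `b` (adapted from STEP of helper85).
-/

set_option autoImplicit false

namespace Pool.Agent.Work.MP_2738db_nt_Z.helper40

open Finset
open Pool.Agent.Work.MP_2738db_nt_W (two_log dvd_sub_of_dvd_pow_sub)
open Pool.Agent.Work.MP_2738db_nt_U (Stmt_Arl)
open Pool.Agent.Work.MP_2738db_nt_U.helper85 (pow_gap)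

/-- the case in which `c ^ k` is not too small -/
theorem core_PG {a b B n k l p : ℕ} {w U : ℝ} (ha : 2 ≤ a) (hb : 2 ≤ b) (hB : 2 ≤ B)
    (hk : 1 ≤ k) (hl : l.Prime) (hp : p.Prime) (hpc : p ^ k ∣ B) (hpb : ¬ p ∣ b)
    (hpa : ¬ p ∣ a) (hw : 2 ≤ w) (hpw : (p : ℝ) ≤ w) (hU : 1 ≤ U) (hbU : Real.log b ≤ U)
    (hcU : Real.log B ≤ k * U)
    (hbig : 10 ^ 10 * w ^ 2 * U ^ 2 * (1 + Real.log l) ^ 2 < l)
    {η ε : ℤ} (hη : η = 1 ∨ η = -1) (hε : ε = 1 ∨ ε = -1)
    (heq : ε * (B : ℤ) = (a : ℤ) ^ l - η * (b : ℤ) ^ n)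
    (hP : l * Real.log a ≤ 4 * Real.log B) : False := by
  have hl1 : (1 : ℝ) ≤ l := by exact_mod_cast hl.one_lt.le
  set lam : ℝ := 1 + Real.log l with hlam
  have hlam1 : 1 ≤ lam := by have := Real.log_nonneg hl1; linarith
  have hl0 : (0 : ℝ) < l := by linarith
  have hbR : (2 : ℝ) ≤ b := by exact_mod_cast hb
  have hcR : (2 : ℝ) ≤ B := by exact_mod_cast hB
  have haR : (2 : ℝ) ≤ a := by exact_mod_cast ha
  have hl2 := Real.log_two_gt_d9
  have hl2' := Real.log_two_lt_d9
  have hlog2c : Real.log 2 ≤ Real.log B := Real.log_le_log (by norm_num) hcR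
  have hlog2b : Real.log 2 ≤ Real.log b := Real.log_le_log (by norm_num) hbR
  have hlog2a : Real.log 2 ≤ Real.log a := Real.log_le_log (by norm_num) haR
  have hkR : (1 : ℝ) ≤ k := by exact_mod_cast hk
  set h : ℝ := Real.log B with hh
  have hh0 : Real.log 2 ≤ h := hlog2c
  have hhU : h ≤ k * U := hcU
  have hw4 : (4 : ℝ) ≤ w ^ 2 := by nlinarith
  have hU2 : (1 : ℝ) ≤ U ^ 2 := by nlinarith
  have hlam2 : (1 : ℝ) ≤ lam ^ 2 := by nlinarith
  -- b^n is bounded
  have hbn : (b : ℝ) ^ n ≤ (a : ℝ) ^ l + (B : ℝ) := by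
    have h1 : (ε : ℝ) * (B : ℝ) = (a : ℝ) ^ l - (η : ℝ) * (b : ℝ) ^ n := by exact_mod_cast heq
    have e1 : 0 < (a : ℝ) ^ l := by positivity
    have e2 : 0 < (b : ℝ) ^ n := by positivity
    have e3 : 0 < (B : ℝ) := by linarith
    rcases hη with rfl | rfl <;> rcases hε with rfl | rfl <;> push_cast at h1 <;> linarith
  have hT2 : n * Real.log b ≤ 5 * h := by
    have e1 : (a : ℝ) ^ l ≤ Real.exp (4 * h) := by
      rw [← Real.log_le_iff_le_exp (by positivity), Real.log_pow]
      exact hP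
    have e2 : (B : ℝ) ≤ Real.exp (4 * h) := by
      rw [← Real.log_le_iff_le_exp (by linarith)]
      linarith
    have e3 : (b : ℝ) ^ n ≤ Real.exp (Real.log 2 + 4 * h) := by
      rw [Real.exp_add, Real.exp_log (by norm_num)]
      linarith
    rw [← Real.log_le_iff_le_exp (by positivity), Real.log_pow] at e3
    linarith
  have hbig1 : 10 ^ 10 * 4 * U ^ 2 ≤ l := by
    have h2 : 10 ^ 10 * 4 * U ^ 2 * 1 ≤ 10 ^ 10 * w ^ 2 * U ^ 2 * lam ^ 2 := by gcongr
    linarith
  have hUU : U ≤ U ^ 2 := by nlinarith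
  have hbigU : 10 ^ 10 * U ≤ l := by linarith
  have hpl : p < l := by
    have h1 : w < l := by
      have h3 : w ≤ w ^ 2 := by nlinarith
      have h4 : w ^ 2 * 1 * 1 ≤ w ^ 2 * U ^ 2 * lam ^ 2 := by gcongr
      nlinarith
    have : (p : ℝ) < l := by linarith
    exact_mod_cast this
  -- k is large
  have hlk : l * Real.log 2 ≤ 4 * (k * U) := by
    have h1 : l * Real.log 2 ≤ l * Real.log a := by gcongr
    linarith
  have hpk : (p : ℤ) ^ k ∣ (a : ℤ) ^ l - η * (b : ℤ) ^ n := by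
    rw [← heq]
    exact Dvd.dvd.mul_left (by exact_mod_cast hpc) ε
  by_cases hln : l ∣ n
  · obtain ⟨n1, rfl⟩ := hln
    have hodd : Odd l := hl.odd_of_ne_two (by have := hp.two_le; omega)
    have hηl : η ^ l = η := by
      rcases hη with rfl | rfl
      · simp
      · exact hodd.neg_one_pow
    have h1 : (a : ℤ) ^ l - η * (b : ℤ) ^ (l * n1) = (a : ℤ) ^ l - (η * (b : ℤ) ^ n1) ^ l := by
      rw [mul_pow, hηl, ← pow_mul, mul_comm n1]
    rw [h1] at hpk heq
    have hpa' : ¬ (p : ℤ) ∣ (a : ℤ) := by exact_mod_cast hpa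
    have h2 := dvd_sub_of_dvd_pow_sub hp hl hpl hpa' hpk
    have h3 : (a : ℤ) - η * (b : ℤ) ^ n1 ≠ 0 := by
      intro h0
      have h4 : (a : ℤ) = η * (b : ℤ) ^ n1 := by linarith
      rw [← h4, sub_self] at heq
      have h5 : (0 : ℤ) < (B : ℤ) := by omega
      rcases hε with rfl | rfl <;> linarith
    have h4 : ((p : ℤ) ^ k) ≤ |(a : ℤ) - η * (b : ℤ) ^ n1| :=
      Int.le_of_dvd (abs_pos.mpr h3) ((dvd_abs _ _).mpr h2)
    have h5 : |(a : ℤ) - η * (b : ℤ) ^ n1| ≤ (a : ℤ) + (b : ℤ) ^ n1 := by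
      have h6 : (0 : ℤ) ≤ (b : ℤ) ^ n1 := by positivity
      have h7 : (0 : ℤ) ≤ (a : ℤ) := by positivity
      rcases hη with rfl | rfl
      · rw [abs_le]; constructor <;> linarith
      · rw [abs_le]; constructor <;> linarith
    have h6 : (p : ℝ) ^ k ≤ (a : ℝ) + (b : ℝ) ^ n1 := by exact_mod_cast h4.trans h5
    have hE : (a : ℝ) + (b : ℝ) ^ n1 ≤ Real.exp (Real.log 2 + 5 * h / l) := by
      have e1 : (a : ℝ) ≤ Real.exp (5 * h / l) := by
        rw [← Real.log_le_iff_le_exp (by positivity), le_div_iff₀ hl0]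
        have : 0 ≤ h := by linarith
        linarith
      have e2 : (b : ℝ) ^ n1 ≤ Real.exp (5 * h / l) := by
        rw [← Real.log_le_iff_le_exp (by positivity), Real.log_pow, le_div_iff₀ hl0]
        push_cast at hT2
        linarith
      rw [Real.exp_add, Real.exp_log (by norm_num)]
      linarith
    have h8 : k * Real.log 2 ≤ Real.log 2 + 5 * h / l := by
      have h9 := Real.log_le_log (by have := hp.pos; positivity) (h6.trans hE)
      rw [Real.log_pow, Real.log_exp] at h9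
      have h10 : Real.log 2 ≤ Real.log p :=
        Real.log_le_log (by norm_num) (by exact_mod_cast hp.two_le)
      have h11 : (k : ℝ) * Real.log 2 ≤ k * Real.log p := by gcongr
      linarith
    have h9 : 5 * h / l ≤ 0.01 * k := by
      rw [div_le_iff₀ hl0]
      have h10 : 0.01 * k * (10 ^ 10 * U) ≤ 0.01 * k * l := by gcongr
      have h11 : 0 ≤ k * U := by positivity
      nlinarith
    have h10 : (10 : ℝ) ≤ k := by
      have h11 : 10 ^ 10 * U * Real.log 2 ≤ 4 * k * U := by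
        have : 10 ^ 10 * U * Real.log 2 ≤ l * Real.log 2 := by gcongr
        linarith
      have h12 : (10 ^ 10 * Real.log 2) * U ≤ (4 * k) * U := by linarith
      have h13 := le_of_mul_le_mul_right h12 (by linarith)
      linarith
    nlinarith
  · have hcop : Nat.Coprime l n := (Nat.Prime.coprime_iff_not_dvd hl).mpr hln
    haveI : Fact p.Prime := ⟨hp⟩
    set T : ℕ := 2 * (p - 1) with hT
    have hT2' : 2 ≤ T := by have := hp.two_le; omega
    have hTp : T ≤ 2 * p := by omega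
    have hTR : (2 : ℝ) ≤ T := by exact_mod_cast hT2'
    have hTwR : (T : ℝ) ≤ 2 * w := by
      have : (T : ℝ) ≤ 2 * p := by exact_mod_cast hTp
      linarith
    have key : ∀ z : ℕ, ¬ p ∣ z → (p : ℤ) ∣ ((z ^ T : ℕ) : ℤ) - 1 := by
      intro z hz
      apply (ZMod.intCast_zmod_eq_zero_iff_dvd _ p).mp
      push_cast
      have hz0 : (z : ZMod p) ≠ 0 := by
        intro h0
        exact hz ((ZMod.natCast_eq_zero_iff _ _).mp h0)
      rw [hT, mul_comm 2, pow_mul, ZMod.pow_card_sub_one_eq_one hz0]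
      simp
    have hηT : η ^ T = 1 := by
      rcases hη with rfl | rfl
      · simp
      · rw [hT, pow_mul]; simp
    have hdiv : (p : ℤ) ^ k ∣ (((a ^ T : ℕ) : ℤ)) ^ l - (((b ^ T : ℕ) : ℤ)) ^ n := by
      have h1 : (p : ℤ) ^ k ∣ ((a : ℤ) ^ l) ^ T - (η * (b : ℤ) ^ n) ^ T :=
        hpk.trans (sub_dvd_pow_sub_pow _ _ T)
      have h2 : ((a : ℤ) ^ l) ^ T - (η * (b : ℤ) ^ n) ^ T
          = (((a ^ T : ℕ) : ℤ)) ^ l - (((b ^ T : ℕ) : ℤ)) ^ n := by
        rw [mul_pow, hηT, one_mul]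
        push_cast
        rw [← pow_mul, ← pow_mul, ← pow_mul, ← pow_mul, mul_comm T l, mul_comm T n]
      rwa [h2] at h1
    have hA1 : T * Real.log a ≤ T * (4 * h / l) := by
      have : Real.log a ≤ 4 * h / l := by rw [le_div_iff₀ hl0]; linarith
      gcongr
    have hlogX : Real.log ((a ^ T : ℕ) : ℝ) = T * Real.log a := by
      push_cast; rw [Real.log_pow]
    have hlogY : Real.log ((b ^ T : ℕ) : ℝ) = T * Real.log b := by
      push_cast; rw [Real.log_pow]
    have hU0 : 0 < U := by linarith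
    have hfin := two_log hp (X := a ^ T) (Y := b ^ T) (k₀ := n) (ℓ := l) (M := k)
      (Nat.one_le_pow _ _ (by omega))
      (by
        calc 2 ≤ b := hb
          _ = b ^ 1 := (pow_one b).symm
          _ ≤ b ^ T := Nat.pow_le_pow_right (by omega) (by omega))
      hl.one_lt.le hcop (key a hpa) (key b hpb)
      (T * (4 * h / l)) (T * U)
      (by
        have : (1 : ℝ) ≤ T * Real.log a := by nlinarith
        linarith)
      (by nlinarith)
      (by rw [hlogX]; exact hA1)
      (by rw [hlogY]; gcongr)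
      (by
        rw [mul_assoc, div_mul_cancel₀ _ hl0.ne']
        have h1 : (n : ℝ) * Real.log 2 ≤ 5 * h := by
          have : (n : ℝ) * Real.log 2 ≤ n * Real.log b := by gcongr
          linarith
        have h2 : (2 : ℝ) * (4 * h) ≤ T * (4 * h) := by
          have : 0 ≤ 4 * h := by linarith
          gcongr
        nlinarith)
      (by
        rw [← hlam]
        have h1 : 6200 * (T * U) * lam ≤ 6200 * ((2 * w) * U) * lam := by gcongr
        have h2 : w * U * lam ≤ w ^ 2 * U ^ 2 * lam ^ 2 := by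
          have e1 : w ≤ w ^ 2 := by nlinarith
          have e3 : lam ≤ lam ^ 2 := by nlinarith
          gcongr
        have h3 : 0 ≤ w ^ 2 * U ^ 2 * lam ^ 2 := by positivity
        nlinarith)
      hdiv
    rw [← hlam] at hfin
    have hh00 : 0 < h := by linarith
    have h1 : (k : ℝ) * l ≤ 4 * 10 ^ 7 * (T * (4 * h)) * (T * U) * lam ^ 2 := by
      have := mul_le_mul_of_nonneg_right hfin hl0.le
      refine this.trans (le_of_eq ?_)
      field_simp
    have h2 : (k : ℝ) * l ≤ 4 * 10 ^ 7 * (T * (4 * (k * U))) * (T * U) * lam ^ 2 := by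
      refine h1.trans ?_
      gcongr
    have hk0 : (0 : ℝ) < k := by linarith
    have h3 : (k : ℝ) * l ≤ k * (6.4 * 10 ^ 8 * w ^ 2 * U ^ 2 * lam ^ 2) := by
      refine h2.trans ?_
      have e1 : (T : ℝ) ^ 2 ≤ 4 * w ^ 2 := by nlinarith
      calc 4 * 10 ^ 7 * (T * (4 * (k * U))) * (T * U) * lam ^ 2
          = k * (1.6 * 10 ^ 8 * (T : ℝ) ^ 2 * U ^ 2 * lam ^ 2) := by ring
        _ ≤ k * (1.6 * 10 ^ 8 * (4 * w ^ 2) * U ^ 2 * lam ^ 2) := by gcongr
        _ = _ := by ring
    have h4 : (l : ℝ) ≤ 6.4 * 10 ^ 8 * w ^ 2 * U ^ 2 * lam ^ 2 := le_of_mul_le_mul_left h3 hk0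
    have h5 : 0 ≤ w ^ 2 * U ^ 2 * lam ^ 2 := by positivity
    nlinarith

/-- the case in which `c ^ k` is small -/
theorem core_QG {CA : ℝ} (hCA : 1 ≤ CA)
    (hArl : ∀ (X Y k₀ l : ℕ) (A B : ℝ), 2 ≤ X → 2 ≤ Y → 1 ≤ k₀ → 1 ≤ l →
      Nat.Coprime l k₀ → 1 ≤ A → 1 ≤ B → Real.log X ≤ A → Real.log Y ≤ B → (k₀ : ℝ) ≤ A * l →
      30000 * B * (1 + Real.log l) ≤ l →
      Real.exp (-(CA * (A * B) * (1 + Real.log l) ^ 2)) ≤ |l * Real.log X - k₀ * Real.log Y|)
    {a b B n l : ℕ} {w U : ℝ} (ha : 2 ≤ a) (hb : 2 ≤ b) (hB : 1 ≤ B)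
    (hn : 1 ≤ n) (hl : l.Prime) (hw : 2 ≤ w) (hU : 1 ≤ U) (hbU : Real.log b ≤ U)
    (hbig : 10 ^ 10 * CA * w ^ 2 * U ^ 2 * (1 + Real.log l) ^ 2 < l)
    {η ε : ℤ} (hη : η = 1 ∨ η = -1) (hε : ε = 1 ∨ ε = -1)
    (heq : ε * (B : ℤ) = (a : ℤ) ^ l - η * (b : ℤ) ^ n)
    (hQ : 4 * Real.log B < l * Real.log a) : False := by
  have hl1 : (1 : ℝ) ≤ l := by exact_mod_cast hl.one_lt.le
  set lam : ℝ := 1 + Real.log l with hlam
  have hlam1 : 1 ≤ lam := by have := Real.log_nonneg hl1; linarith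
  have hl0 : (0 : ℝ) < l := by linarith
  have hbR : (2 : ℝ) ≤ b := by exact_mod_cast hb
  have hcR : (1 : ℝ) ≤ B := by exact_mod_cast hB
  have haR : (2 : ℝ) ≤ a := by exact_mod_cast ha
  have hl2 := Real.log_two_gt_d9
  have hl2' := Real.log_two_lt_d9
  have hlog2b : Real.log 2 ≤ Real.log b := Real.log_le_log (by norm_num) hbR
  have hlog2a : Real.log 2 ≤ Real.log a := Real.log_le_log (by norm_num) haR
  have hw4 : (4 : ℝ) ≤ w ^ 2 := by nlinarith
  have hU2 : (1 : ℝ) ≤ U ^ 2 := by nlinarith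
  have hUU : U ≤ U ^ 2 := by nlinarith
  have hlam2 : lam ≤ lam ^ 2 := by nlinarith
  have hbig1 : 10 ^ 10 * CA * 4 * U * lam ^ 2 ≤ l := by
    have h2 : 10 ^ 10 * CA * 4 * U * lam ^ 2 ≤ 10 ^ 10 * CA * w ^ 2 * U ^ 2 * lam ^ 2 := by gcongr
    linarith
  have hCU : 1 ≤ CA * U := by nlinarith
  have hbig2 : 10 ^ 10 * U * lam ≤ l := by
    have h2 : 10 ^ 10 * 1 * 1 * U * lam ≤ 10 ^ 10 * CA * 4 * U * lam ^ 2 := by
      gcongr
      norm_num
    linarith
  have hbig3 : (10 : ℝ) ^ 10 ≤ l := by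
    have h2 : (10 : ℝ) ^ 10 * 1 * 1 ≤ 10 ^ 10 * U * lam := by gcongr
    linarith
  have hk0 : 0 ≤ Real.log B := Real.log_nonneg hcR
  have hck : (B : ℝ) = Real.exp (Real.log B) := by
    rw [Real.exp_log (by linarith)]
  have hal : (a : ℝ) ^ l = Real.exp (l * Real.log a) := by
    rw [← Real.log_pow, Real.exp_log (by positivity)]
  have hbn : (b : ℝ) ^ n = Real.exp (n * Real.log b) := by
    rw [← Real.log_pow, Real.exp_log (by positivity)]
  set T1 : ℝ := l * Real.log a with hT1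
  set T2 : ℝ := n * Real.log b with hT2
  set T3 : ℝ := Real.log B with hT3
  have hT1big : (10 : ℝ) ≤ T1 := by
    have h1 : (l : ℝ) * Real.log 2 ≤ T1 := by rw [hT1]; gcongr
    nlinarith
  have h31 : Real.exp T3 ≤ Real.exp T1 / 2 := by
    have h1 : Real.exp T1 = Real.exp T3 * Real.exp (T1 - T3) := by
      rw [← Real.exp_add]; ring_nf
    have h2 : 2 ≤ Real.exp (T1 - T3) := by
      have h3 := Real.add_one_le_exp (T1 - T3)
      linarith
    have h4 : Real.exp T3 * 2 ≤ Real.exp T3 * Real.exp (T1 - T3) := by gcongr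
    linarith
  have heqR : (ε : ℝ) * Real.exp T3 = Real.exp T1 - (η : ℝ) * Real.exp T2 := by
    have h1 : (ε : ℝ) * (B : ℝ) = (a : ℝ) ^ l - (η : ℝ) * (b : ℝ) ^ n := by exact_mod_cast heq
    rwa [hck, hal, hbn] at h1
  have hp1 := Real.exp_pos T1
  have hp2 := Real.exp_pos T2
  have hp3 := Real.exp_pos T3
  have hη1 : η = 1 := by
    rcases hη with h | h
    · exact h
    · exfalso
      rw [h] at heqR
      rcases hε with rfl | rfl <;> push_cast at heqR <;> linarith
  subst hη1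
  have habs : |Real.exp T1 - Real.exp T2| = Real.exp T3 := by
    have h1 : Real.exp T1 - Real.exp T2 = ε * Real.exp T3 := by
      rw [heqR]; push_cast; ring
    rw [h1, abs_mul, abs_of_pos hp3]
    rcases hε with rfl | rfl <;> norm_num
  have hlow : Real.exp T1 / 2 ≤ Real.exp T2 := by
    have h1 := le_abs_self (Real.exp T1 - Real.exp T2)
    linarith
  by_cases hln : l ∣ n
  · obtain ⟨n1, hn1⟩ := hln
    have hne : a ≠ b ^ n1 := by
      intro h0
      have h1 : (b : ℤ) ^ n = (a : ℤ) ^ l := by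
        rw [hn1, mul_comm, pow_mul, h0]
        push_cast
        rfl
      rw [h1, one_mul, sub_self] at heq
      have h5 : (0 : ℤ) < (B : ℤ) := by omega
      rcases hε with rfl | rfl <;> linarith
    have h1 := pow_gap (x := a) (y := b ^ n1) (l := l) (by omega) hl.one_lt.le hne
    have h2 : |(a : ℤ) ^ l - ((b ^ n1 : ℕ) : ℤ) ^ l| = (B : ℤ) := by
      have h3 : (a : ℤ) ^ l - ((b ^ n1 : ℕ) : ℤ) ^ l = ε * (B : ℤ) := by
        rw [heq, hn1]
        push_cast
        rw [← pow_mul, mul_comm n1 l]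
        ring
      have h4 : (0 : ℤ) < (B : ℤ) := by omega
      rw [h3, abs_mul, abs_of_pos h4]
      rcases hε with rfl | rfl <;> norm_num
    rw [h2] at h1
    have h3 : (a : ℝ) ^ (l - 1) ≤ (B : ℝ) := by exact_mod_cast h1
    have h4 := Real.log_le_log (by positivity) h3
    rw [Real.log_pow] at h4
    have h5 : ((l - 1 : ℕ) : ℝ) = (l : ℝ) - 1 := by
      rw [Nat.cast_sub hl.one_lt.le]; norm_num
    rw [h5] at h4
    have h6 : 0 < Real.log a := by linarith
    have h7 : 4 * (((l : ℝ) - 1) * Real.log a) < l * Real.log a := by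
      have : 4 * (((l : ℝ) - 1) * Real.log a) ≤ 4 * Real.log B := by linarith
      linarith
    have h8 : (4 * ((l : ℝ) - 1)) * Real.log a < l * Real.log a := by linarith
    have h9 := lt_of_mul_lt_mul_right h8 h6.le
    linarith
  · have hcop : Nat.Coprime l n := (Nat.Prime.coprime_iff_not_dvd hl).mpr hln
    have hT12 : T2 ≤ T1 + Real.log 2 := by
      have h1 : Real.exp T2 ≤ Real.exp (T1 + Real.log 2) := by
        rw [Real.exp_add, Real.exp_log (by norm_num)]
        have h2 := neg_abs_le (Real.exp T1 - Real.exp T2)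
        linarith
      exact Real.exp_le_exp.1 h1
    have hA := hArl a b n l (2 * Real.log a) U ha hb hn hl.one_lt.le hcop (by linarith) hU
      (by linarith) hbU
      (by
        have h1 : (n : ℝ) * Real.log 2 ≤ T2 := by rw [hT2]; gcongr
        have h2 : (n : ℝ) * Real.log 2 ≤ T1 + Real.log 2 := by linarith
        have h3 : 2 * Real.log a * l = 2 * T1 := by rw [hT1]; ring
        rw [h3]
        by_contra hcon
        push Not at hcon
        nlinarith)
      (by
        rw [← hlam]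
        have h1 : 0 ≤ U * lam := by positivity
        nlinarith)
    rw [← hlam, ← hT1, ← hT2] at hA
    have hup : |T1 - T2| ≤ 2 * Real.exp (T3 - T1) := by
      have key : ∀ x y : ℝ, x - y ≤ (Real.exp x - Real.exp y) / Real.exp y := by
        intro x y
        have h1 := Real.add_one_le_exp (x - y)
        rw [Real.exp_sub] at h1
        rw [sub_div, div_self (Real.exp_pos y).ne']
        linarith
      have h1 := key T1 T2
      have h2 := key T2 T1
      have e1 : (Real.exp T1 - Real.exp T2) / Real.exp T2 ≤ 2 * Real.exp (T3 - T1) := by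
        rw [div_le_iff₀ hp2, Real.exp_sub]
        have h3 := le_abs_self (Real.exp T1 - Real.exp T2)
        rw [habs] at h3
        have h4 : Real.exp T3 = 2 * (Real.exp T3 / Real.exp T1) * (Real.exp T1 / 2) := by
          field_simp
        have h5 : 2 * (Real.exp T3 / Real.exp T1) * (Real.exp T1 / 2) ≤
            2 * (Real.exp T3 / Real.exp T1) * Real.exp T2 := by gcongr
        linarith
      have e2 : (Real.exp T2 - Real.exp T1) / Real.exp T1 ≤ 2 * Real.exp (T3 - T1) := by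
        rw [div_le_iff₀ hp1, Real.exp_sub]
        have h3 := neg_le_abs (Real.exp T1 - Real.exp T2)
        rw [habs] at h3
        have h4 : Real.exp T3 = (Real.exp T3 / Real.exp T1) * Real.exp T1 := by
          field_simp
        linarith
      rw [abs_le]
      constructor <;> linarith
    have hup2 : |T1 - T2| ≤ Real.exp (Real.log 2 + (T3 - T1)) := by
      rw [Real.exp_add, Real.exp_log (by norm_num)]
      exact hup
    have h1 := Real.exp_le_exp.1 (hA.trans hup2)
    have h2 : 3 / 4 * T1 ≤ Real.log 2 + CA * (2 * Real.log a * U) * lam ^ 2 := by linarith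
    have h3 : Real.log 2 + CA * (2 * Real.log a * U) * lam ^ 2 ≤
        Real.log a * (1 + 2 * (CA * U * lam ^ 2)) := by
      have : Real.log a * (1 + 2 * (CA * U * lam ^ 2)) =
        Real.log a + CA * (2 * Real.log a * U) * lam ^ 2 := by ring
      rw [this]
      linarith
    have h4 : Real.log a * (3 / 4 * l) ≤ Real.log a * (1 + 2 * (CA * U * lam ^ 2)) := by
      have : Real.log a * (3 / 4 * l) = 3 / 4 * T1 := by rw [hT1]; ring
      linarith
    have h5 := le_of_mul_le_mul_left h4 (by linarith)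
    have h6 : 0 ≤ CA * U * lam ^ 2 := by positivity
    nlinarith


/-- **STEPG**: prime exponents `l` of `a` are bounded if `B` has a large valuation at a small prime. -/
theorem stepG (hA : Stmt_Arl) : ∃ C : ℝ, 1 ≤ C ∧ ∀ (a B c k l p : ℕ) (w U : ℝ), 2 ≤ a → 1 ≤ B →
    2 ≤ c → Nat.Coprime B c → 1 ≤ k → l.Prime → p.Prime → 2 ≤ w → (p : ℝ) ≤ w → 1 ≤ U →
    Real.log c ≤ U → Real.log B ≤ (padicValNat p B : ℝ) * U →
    C * w ^ 2 * U ^ 2 * (1 + Real.log l) ^ 2 < l →
    a ^ l + B ≠ c ^ k ∧ B + c ^ k ≠ a ^ l ∧ c ^ k + a ^ l ≠ B := by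
  obtain ⟨CA, hCA, hArl⟩ := hA
  refine ⟨10 ^ 10 * CA, by nlinarith, ?_⟩
  intro a B c k l p w U ha hB hc hBc hk hl hp hw hpw hU hcU hBU hbig
  have hmain : ∀ {η ε : ℤ}, (η = 1 ∨ η = -1) → (ε = 1 ∨ ε = -1) →
      ε * (B : ℤ) = (a : ℤ) ^ l - η * (c : ℤ) ^ k → False := by
    intro η ε hη hε heq
    rcases le_or_gt ((l : ℝ) * Real.log a) (4 * Real.log B) with hP | hQ
    · have hlog2a : Real.log 2 ≤ Real.log a :=
        Real.log_le_log (by norm_num) (by exact_mod_cast ha)
      have hl2 := Real.log_two_gt_d9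
      have hl1 : (1 : ℝ) ≤ l := by exact_mod_cast hl.one_lt.le
      have hBpos : 0 < Real.log B := by nlinarith
      have hB2 : 2 ≤ B := by
        by_contra hcon
        have : B = 1 := by omega
        rw [this] at hBpos
        simp at hBpos
      have hM : 1 ≤ padicValNat p B := by
        by_contra hcon
        have : padicValNat p B = 0 := by omega
        rw [this] at hBU
        push_cast at hBU
        linarith
      haveI : Fact p.Prime := ⟨hp⟩
      have hpB : p ∣ B := dvd_of_one_le_padicValNat hM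
      have hpc : ¬ p ∣ c := by
        intro h
        have := Nat.dvd_gcd hpB h
        rw [hBc.gcd_eq_one] at this
        exact hp.one_lt.ne' (Nat.dvd_one.mp this)
      have hpp : Prime (p : ℤ) := Nat.prime_iff_prime_int.mp hp
      have hpa : ¬ p ∣ a := by
        intro h
        have h1 : (p : ℤ) ∣ (a : ℤ) ^ l := dvd_pow (Int.natCast_dvd_natCast.mpr h) hl.ne_zero
        have h2 : (p : ℤ) ∣ ε * (B : ℤ) :=
          Dvd.dvd.mul_left (Int.natCast_dvd_natCast.mpr hpB) ε
        rw [heq] at h2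
        have h3 : (p : ℤ) ∣ η * (c : ℤ) ^ k := by
          have h4 := dvd_sub h1 h2
          rwa [sub_sub_cancel] at h4
        have h5 : (p : ℤ) ∣ (c : ℤ) ^ k := by
          rcases hη with rfl | rfl
          · rwa [one_mul] at h3
          · rwa [neg_one_mul, dvd_neg] at h3
        exact hpc (Int.natCast_dvd_natCast.mp (hpp.dvd_of_dvd_pow h5))
      refine core_PG ha hc hB2 hM hl hp pow_padicValNat_dvd hpc hpa hw hpw hU hcU hBU ?_ hη hε heq hP
      refine lt_of_le_of_lt ?_ hbig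
      have h1 : 10 ^ 10 * 1 * w ^ 2 * U ^ 2 * (1 + Real.log l) ^ 2 ≤
        10 ^ 10 * CA * w ^ 2 * U ^ 2 * (1 + Real.log l) ^ 2 := by gcongr
      linarith
    · exact core_QG hCA hArl ha hc hB hk hl hw hU hcU hbig hη hε heq hQ
  refine ⟨?_, ?_, ?_⟩
  · intro h
    have hz : ((a ^ l + B : ℕ) : ℤ) = ((c ^ k : ℕ) : ℤ) := by rw [h]
    push_cast at hz
    exact hmain (η := 1) (ε := -1) (Or.inl rfl) (Or.inr rfl) (by linarith)
  · intro h
    have hz : ((B + c ^ k : ℕ) : ℤ) = ((a ^ l : ℕ) : ℤ) := by rw [h]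
    push_cast at hz
    exact hmain (η := 1) (ε := 1) (Or.inl rfl) (Or.inl rfl) (by linarith)
  · intro h
    have hz : ((c ^ k + a ^ l : ℕ) : ℤ) = ((B : ℕ) : ℤ) := by rw [h]
    push_cast at hz
    exact hmain (η := -1) (ε := 1) (Or.inr rfl) (Or.inl rfl) (by linarith)

end Pool.Agent.Work.MP_2738db_nt_Z.helper40
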