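import Pool.Agent.Work.MP_2738db_nt_Z_helper40.FIN2
import Pool.Agent.Work.MP_2738db_nt_Z_helper40.STEPG
import Pool.Agent.Work.MP_2738db_nt_U_helper40.Main

set_option autoImplicit false

namespace Pool.Agent.Work.MP_2738db_nt_Z.helper40

open Finset Filter
open Pool.Agent.Work.MP_2738db_nt_U (PY LM)
open Pool.Agent.Work.MP_2738db_nt_U.helper40 (pow_red gcd_red prod_PY_le mem_PY omega_le sβ sρ)

/-- SMZ with the number of prime factors -/
def Stmt_Smw : Prop :=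
  ∀ η : ℝ, 0 < η → η < 1 → ∃ T : ℝ, ∀ t K : ℝ, T ≤ t → Real.exp (t / 2) ≤ K →
    K ≤ Real.exp t → ∀ k : ℕ, 1 ≤ k → (k.primeFactors.card : ℝ) ≤ Real.exp (t ^ (1 - η)) →
    (((Icc 1 ⌊K⌋₊).filter (fun k₀ => K ^ (3 / 10 : ℝ) < (Nat.gcd k k₀ : ℝ))).card : ℝ)
      ≤ K / (256 * t)

/-- STEPG -/
def Stmt_StepG : Prop :=
  ∃ C : ℝ, 1 ≤ C ∧ ∀ (a B c k l p : ℕ) (w U : ℝ), 2 ≤ a → 1 ≤ B →
    2 ≤ c → Nat.Coprime B c → 1 ≤ k → l.Prime → p.Prime → 2 ≤ w → (p : ℝ) ≤ w → 1 ≤ U →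
    Real.log c ≤ U → Real.log B ≤ (padicValNat p B : ℝ) * U →
    C * w ^ 2 * U ^ 2 * (1 + Real.log l) ^ 2 < l →
    a ^ l + B ≠ c ^ k ∧ B + c ^ k ≠ a ^ l ∧ c ^ k + a ^ l ≠ B

/-- the exceptional set -/
def ExcS (N : ℕ) (S : Finset ℕ) (g r : ℕ) (w V : ℝ) : Set ℕ :=
  {x : ℕ | 1 ≤ x ∧ x ≤ N ∧
    ∃ a B m k : ℕ, B ∈ Submonoid.closure (S : Set ℕ) ∧ Nat.Coprime B (g * x + r) ∧
      1 ≤ a ∧ 2 ≤ m ∧ 1 ≤ k ∧ (k.primeFactors.card : ℝ) ≤ V ∧
      ((∃ p : ℕ, p.Prime ∧ p ∣ m ∧ (p : ℝ) ≤ w) ∨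
        (∀ b ∈ S, ∃ p : ℕ, p.Prime ∧ p ∣ b ∧ (p : ℝ) ≤ w) ∨
        (S.card = 1 ∧ ∃ p : ℕ, p.Prime ∧ p ∣ g * x + r ∧ (p : ℝ) ≤ w)) ∧
      (a ^ m + B = (g * x + r) ^ k ∨ B + (g * x + r) ^ k = a ^ m ∨ (g * x + r) ^ k + a ^ m = B)}

/-- the theorem -/
def Stmt_ZS : Prop :=
  ∀ ε σ : ℝ, 0 < ε → 0 ≤ σ → σ + ε < 1 → ∃ κ : ℝ, 0 < κ ∧ ∃ N₀ : ℕ, ∀ N : ℕ, N₀ ≤ N →
    ∀ (S : Finset ℕ) (g r : ℕ), (S.card : ℝ) ≤ (Real.log N) ^ σ →
    (∀ b ∈ S, 2 ≤ b ∧ Real.log b ≤ (Real.log N) ^ (1 / ε)) →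
    1 ≤ g → Real.log (g + r) ≤ (Real.log N) ^ (1 / ε) →
    ((ExcS N S g r ((Real.log N) ^ (1 / ε)) (Real.exp ((Real.log N) ^ (1 - σ - ε)))).ncard : ℝ)
      ≤ (N : ℝ) ^ (1 - κ)

/-- one set of the union bound -/
noncomputable def FSS (N P g r : ℕ) (t : ℝ) (DD : ℕ → Finset ℕ) (θ : ℕ × ℕ × ℕ × ℕ × ℕ) :
    Finset ℕ := by
  classical
  exact (Icc 1 N).filter (fun x => ∀ q ∈ Qs t P θ.1 θ.2.1 (DD θ.1), ∃ s : ZMod q,
    ((g * x + r : ℕ) : ZMod q) ^ θ.2.2.1 + ((sβ θ.2.2.2.2 * (θ.2.2.2.1 : ℤ) : ℤ) : ZMod q)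
      = ((sρ θ.2.2.2.2 : ℤ) : ZMod q) * s ^ θ.1)

/-- the good parameters -/
def GoodS (P : ℕ) (t γ : ℝ) (DD : ℕ → Finset ℕ) (θ : ℕ × ℕ × ℕ × ℕ × ℕ) : Prop :=
  θ.1.Prime ∧ 1 ≤ θ.2.2.1 ∧ Real.exp (γ * t) / 2 ≤ ((Qs t P θ.1 θ.2.1 (DD θ.1)).card : ℝ) ∧
    (∀ q ∈ Qs t P θ.1 θ.2.1 (DD θ.1), 400 * (Nat.gcd θ.2.2.1 (q - 1)) ^ 2 ≤ q) ∧
    (∀ q ∈ Qs t P θ.1 θ.2.1 (DD θ.1), ¬ q ∣ θ.2.2.2.1)

lemma FSS_card (hL : MP_2738db_nt_U.Stmt_Loc) (hM : Stmt_Mom)
    {ε α C T1 T2 γ γ1 : ℝ} {j A : ℕ} {u t y Lam : ℝ}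
    (num : NumS ε α C T1 T2 γ γ1 j A u t y Lam) (hγ : 0 < γ) (hγ1 : 0 < γ1) (hg1 : γ1 ≤ γ / 32)
    (hg2 : γ1 ≤ 1 / 2) {N P g r : ℕ} (hgP : g ∣ P) (hN : (N : ℝ) = Real.exp u)
    (DD : ℕ → Finset ℕ) (θ : ℕ × ℕ × ℕ × ℕ × ℕ) (hθ : GoodS P t γ DD θ) :
    ((FSS N P g r t DD θ).card : ℝ) ≤ 2 * Real.exp ((1 - γ1) * u) := by
  classical
  obtain ⟨hlp, hκ, hcard, hg, hB⟩ := hθ
  set Q := Qs t P θ.1 θ.2.1 (DD θ.1) with hQ
  have hQp : ∀ q ∈ Q, q.Prime := fun q hq => (mem_Qs hq).1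
  have hq2 : ∀ q ∈ Q, 400 ≤ q := by
    intro q hq
    have h1 := hg q hq
    have h2 : 1 ≤ (Nat.gcd θ.2.2.1 (q - 1)) ^ 2 :=
      Nat.one_le_pow _ _ (Nat.gcd_pos_of_pos_left _ hκ)
    omega
  have hQne : Q.Nonempty := by
    rw [← Finset.card_pos]
    have : (0 : ℝ) < (Q.card : ℝ) := lt_of_lt_of_le (by positivity) hcard
    exact_mod_cast this
  obtain ⟨hr1, hsz⟩ := set_numS num hγ hγ1 hg1 hg2 hcard
    (z := ⌊Real.exp t⌋₊) (Nat.floor_le (Real.exp_pos t).le)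
  have h1 := one_setS hL hM (N := N) (l := θ.1) (κ := θ.2.2.1) (z := ⌊Real.exp t⌋₊)
    (r := ⌊u / (8 * t)⌋₊) (g := g) (h := r) hlp hκ Q hQp
    (fun q hq => Nat.le_floor (mem_Qs hq).2.1)
    (by
      intro q hq
      obtain ⟨_, _, _, d, _, h4⟩ := mem_Qs hq
      refine ⟨2 * d * θ.2.1, ?_⟩
      have : q - 1 = 2 * θ.1 * d * θ.2.1 := by omega
      rw [this]; ring)
    hg hQne hr1
    (fun q hq hqg => (mem_Qs hq).2.2.1 (hqg.trans hgP))
    (sβ θ.2.2.2.2 * (θ.2.2.2.1 : ℤ)) (sρ θ.2.2.2.2)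
    (by
      intro q hq h
      haveI : Fact q.Prime := ⟨hQp q hq⟩
      rw [ZMod.intCast_zmod_eq_zero_iff_dvd] at h
      have h3 : (q : ℤ) ∣ (θ.2.2.2.1 : ℤ) := by
        unfold sβ at h
        split_ifs at h
        · simpa using h
        · simpa using h
      exact hB q hq (by exact_mod_cast h3))
    (by
      intro q hq h
      haveI : Fact q.Prime := ⟨hQp q hq⟩
      rw [ZMod.intCast_zmod_eq_zero_iff_dvd] at h
      have h5 := hq2 q hq
      have h3 : (q : ℤ) ∣ 1 := by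
        unfold sρ at h
        split_ifs at h
        · simpa using h
        · exact h
      have := Int.le_of_dvd (by norm_num) h3
      omega)
  have h2 : {x : ℕ | 1 ≤ x ∧ x ≤ N ∧ ∀ q ∈ Q, ∃ s : ZMod q,
      ((g * x + r : ℕ) : ZMod q) ^ θ.2.2.1 + ((sβ θ.2.2.2.2 * (θ.2.2.2.1 : ℤ) : ℤ) : ZMod q)
        = ((sρ θ.2.2.2.2 : ℤ) : ZMod q) * s ^ θ.1} = ↑(FSS N P g r t DD θ) := by
    ext c
    unfold FSS
    simp only [Set.mem_ofPred_eq, coe_filter, mem_Icc, and_assoc, ← hQ]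
  rw [h2, Set.ncard_coe_finset] at h1
  refine h1.trans ?_
  rw [hN]
  exact hsz

/-- the final numerical inequality -/
lemma count_numS {ε α C T1 T2 γ γ1 : ℝ} {j A : ℕ} {u t y Lam : ℝ}
    (num : NumS ε α C T1 T2 γ γ1 j A u t y Lam) (hγ1 : 0 < γ1) (hg2 : γ1 ≤ 1 / 2)
    (hLam : Lam = u ^ (4 * j + 1)) (s : ℕ) (hs : ((s : ℝ) + 1) * (4 * y) ≤ 8 * u ^ (1 - ε / 4)) :
    1 + (Lam * (Real.exp t * (Real.exp (t + 2 * y * Real.log 4) *
      ((Real.exp (t + 2 * y * Real.log 4)) ^ s * 3)))) *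
      (2 * Real.exp ((1 - γ1) * u)) ≤ Real.exp ((1 - γ1 / 2) * u) := by
  have hu0 : 0 < u := by linarith [num.u1]
  have ht0 : 0 < t := by linarith [num.t4]
  have hy0 : 0 < y := by linarith [num.y3]
  have hLexp : Lam = Real.exp ((4 * j + 1) * Real.log u) := by
    rw [hLam]
    have : ((4 * j + 1 : ℕ) : ℝ) = 4 * (j : ℝ) + 1 := by push_cast; ring
    rw [← this, Real.exp_nat_mul, Real.exp_log hu0]
  have hlog4 : Real.log 4 ≤ 14 / 10 := by
    have : Real.log 4 = 2 * Real.log 2 := by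
      rw [show (4 : ℝ) = 2 ^ 2 by norm_num, Real.log_pow]; norm_num
    have := Real.log_two_lt_d9
    linarith
  have hlu : 0 ≤ Real.log u := Real.log_nonneg (by linarith [num.u1])
  have hj0 : (0 : ℝ) ≤ j := Nat.cast_nonneg j
  have h7 : (7 : ℝ) ≤ Real.exp 2 := by
    have h3 : Real.exp 2 = Real.exp 1 * Real.exp 1 := by
      rw [← Real.exp_add]; norm_num
    have h4 : (2.7 : ℝ) < Real.exp 1 := by have := Real.exp_one_gt_d9; linarith
    nlinarith
  have hl4 : 0 ≤ 2 * y * Real.log 4 := mul_nonneg (by linarith) (Real.log_nonneg (by norm_num))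
  have hX4 : t + 2 * y * Real.log 4 ≤ 4 * y := by
    have h1 : 2 * y * Real.log 4 ≤ 2 * y * (14 / 10) :=
      mul_le_mul_of_nonneg_left hlog4 (by linarith)
    have := num.tly
    linarith
  set M := Lam * (Real.exp t * (Real.exp (t + 2 * y * Real.log 4) *
    (Real.exp (t + 2 * y * Real.log 4)) ^ s)) with hM
  have hM1 : M = Real.exp ((4 * j + 1) * Real.log u + (t + ((s : ℝ) + 1) * (t + 2 * y * Real.log 4))) := by
    rw [hM, hLexp, ← Real.exp_nat_mul, ← Real.exp_add, ← Real.exp_add, ← Real.exp_add]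
    congr 1; ring
  have hs0 : (0 : ℝ) ≤ s := Nat.cast_nonneg s
  have hMge : 1 ≤ M := by
    rw [hM1]
    apply Real.one_le_exp
    have h2 : 0 ≤ (4 * (j : ℝ) + 1) * Real.log u := mul_nonneg (by linarith) hlu
    have h3 : 0 ≤ ((s : ℝ) + 1) * (t + 2 * y * Real.log 4) := mul_nonneg (by linarith) (by linarith)
    linarith
  have hEge : 1 ≤ Real.exp ((1 - γ1) * u) := by
    apply Real.one_le_exp
    apply mul_nonneg (by linarith) hu0.le
  have hMle : M ≤ Real.exp ((4 * j + 1) * Real.log u + (t + 8 * u ^ (1 - ε / 4))) := by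
    rw [hM1]
    apply Real.exp_le_exp.mpr
    have h1 : ((s : ℝ) + 1) * (t + 2 * y * Real.log 4) ≤ ((s : ℝ) + 1) * (4 * y) :=
      mul_le_mul_of_nonneg_left hX4 (by linarith)
    linarith
  calc 1 + (Lam * (Real.exp t * (Real.exp (t + 2 * y * Real.log 4) *
      ((Real.exp (t + 2 * y * Real.log 4)) ^ s * 3)))) *
      (2 * Real.exp ((1 - γ1) * u)) = 1 + 6 * (M * Real.exp ((1 - γ1) * u)) := by rw [hM]; ring
    _ ≤ 7 * (M * Real.exp ((1 - γ1) * u)) := by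
        have : 1 ≤ M * Real.exp ((1 - γ1) * u) := by nlinarith
        linarith
    _ ≤ Real.exp 2 * (Real.exp ((4 * j + 1) * Real.log u + (t + 8 * u ^ (1 - ε / 4))) * Real.exp ((1 - γ1) * u)) := by
        apply mul_le_mul h7 _ (by positivity) (Real.exp_pos _).le
        exact mul_le_mul_of_nonneg_right hMle (Real.exp_pos _).le
    _ = Real.exp ((2 + ((4 * j + 1) * Real.log u + (t + 8 * u ^ (1 - ε / 4)))) + (1 - γ1) * u) := by
        rw [← Real.exp_add, ← Real.exp_add]; congr 1; ring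
    _ ≤ Real.exp ((1 - γ1 / 2) * u) := by
        apply Real.exp_le_exp.mpr
        have h1 := num.hS
        have h2 : 0 ≤ γ1 / 4 * u := by positivity
        have h3 : (1 - γ1 / 2) * u = (γ1 / 4 * u + (1 - γ1) * u) + γ1 / 4 * u := by ring
        rw [h3]
        linarith

theorem stmt_ZS (hL : MP_2738db_nt_U.Stmt_Loc) (hSm : Stmt_Smw) (hD : Stmt_Dpr) (hM : Stmt_Mom)
    (hSt : MP_2738db_nt_U.Stmt_Step) (hSG : Stmt_StepG) : Stmt_ZS := by
  classical
  intro ε σ hε0 hσ0 hσε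
  set α : ℝ := 1 - σ with hα
  have hεα : ε < α := by rw [hα]; linarith
  have hα1 : α ≤ 1 := by rw [hα]; linarith
  have hε1 : ε < 1 := by linarith
  obtain ⟨C1, hC1, hst⟩ := hSt
  obtain ⟨C2, hC2, hsg⟩ := hSG
  set C : ℝ := 4 * max C1 C2 with hC
  have hCm : 1 ≤ max C1 C2 := hC1.trans (le_max_left _ _)
  obtain ⟨T1, hT1⟩ := hSm (ε / 2) (by linarith) (by linarith)
  obtain ⟨γ, hγ, hDp⟩ := hD (ε / 4) (by linarith) (by linarith)
  set j : ℕ := ⌈1 / ε⌉₊ + 1 with hj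
  have hj1 : 1 / ε + 1 ≤ j := by
    rw [hj]; push_cast
    have := Nat.le_ceil (1 / ε)
    linarith
  set A : ℕ := ⌈(8 * j + 4 : ℝ) / ε⌉₊ with hA
  have hA1 : (8 * j + 4 : ℝ) ≤ ε * A := by
    have := Nat.le_ceil ((8 * j + 4 : ℝ) / ε)
    rw [div_le_iff₀ hε0] at this
    linarith
  obtain ⟨T2, hT2⟩ := hDp A
  set γ1 : ℝ := min (γ / 32) (1 / 2) with hγ1d
  have hg1 : γ1 ≤ γ / 32 := min_le_left _ _
  have hg2 : γ1 ≤ 1 / 2 := min_le_right _ _
  have hγ1 : 0 < γ1 := lt_min (by positivity) (by norm_num)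
  obtain ⟨u0, hu0⟩ := numericS ε α C T1 T2 γ γ1 hε0 hεα hα1 hγ hγ1 j A hA1
  refine ⟨γ1 / 2, by positivity, ⌈Real.exp u0⌉₊ + 1, ?_⟩
  intro N hN S g r hS hSb hg hgr
  have hN0 : 0 < N := by omega
  have hNr : (0 : ℝ) < N := by exact_mod_cast hN0
  set u := Real.log N with hu
  have huu : u0 ≤ u := by
    rw [hu, Real.le_log_iff_exp_le hNr]
    have h1 : ((⌈Real.exp u0⌉₊ + 1 : ℕ) : ℝ) ≤ N := by exact_mod_cast hN
    push_cast at h1
    have := Nat.le_ceil (Real.exp u0)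
    linarith
  have num := hu0 u huu
  set t := u ^ (α - ε / 2) with ht
  set y := u ^ (α - ε / 4) with hy
  set Lam := u ^ (4 * j + 1) with hLam
  have hu3 := num.u1
  have hu0' : 0 < u := by linarith
  have hu1 : 1 ≤ u := by linarith
  have hy3 := num.y3
  have ht4 := num.t4
  have hNe : (N : ℝ) = Real.exp u := by rw [hu, Real.exp_log hNr]
  -- sizes
  have hwj1 : u ^ (1 / ε) * u ≤ u ^ j := by
    calc u ^ (1 / ε) * u = u ^ (1 / ε) * u ^ (1 : ℝ) := by rw [Real.rpow_one]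
      _ = u ^ (1 / ε + 1) := by rw [← Real.rpow_add hu0']
      _ ≤ u ^ (j : ℝ) := Real.rpow_le_rpow_of_exponent_le hu1 hj1
      _ = u ^ j := Real.rpow_natCast _ _
  have hw0 : 0 ≤ u ^ (1 / ε) := Real.rpow_nonneg hu0'.le _
  have hwj : u ^ (1 / ε) ≤ u ^ j := by nlinarith
  have hwu : u ≤ u ^ (1 / ε) := by
    have h1 : u ^ (1 : ℝ) ≤ u ^ (1 / ε) := by
      apply Real.rpow_le_rpow_of_exponent_le hu1
      rw [le_div_iff₀ hε0]; linarith
    rwa [Real.rpow_one] at h1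
  have hσ1 : u ^ σ ≤ u := by
    calc u ^ σ ≤ u ^ (1 : ℝ) := Real.rpow_le_rpow_of_exponent_le hu1 (by linarith)
      _ = u := Real.rpow_one u
  have hσge : 1 ≤ u ^ σ := Real.one_le_rpow hu1 hσ0
  have hSu : (S.card : ℝ) ≤ u := hS.trans hσ1
  set P : ℕ := (∏ b ∈ S, b) * g with hP
  have hbpos : ∀ b ∈ S, 0 < b := fun b hb => by have := (hSb b hb).1; omega
  have hP0 : 0 < P := by
    rw [hP]
    exact Nat.mul_pos (Finset.prod_pos hbpos) hg
  have hgP : g ∣ P := Dvd.intro_left _ rfl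
  have hbP : ∀ b ∈ S, b ∣ P := fun b hb => (Finset.dvd_prod_of_mem _ hb).trans (Dvd.intro _ rfl)
  have hlogg : Real.log g ≤ u ^ (1 / ε) := by
    refine le_trans ?_ hgr
    apply Real.log_le_log
    · exact_mod_cast hg
    · have : (0 : ℝ) ≤ r := Nat.cast_nonneg r
      linarith
  have hPu : Real.log P ≤ 2 * u ^ j := by
    rw [hP]
    push_cast
    rw [Real.log_mul (by
        rw [← Nat.cast_prod]
        exact_mod_cast (Finset.prod_pos hbpos).ne') (by exact_mod_cast (by omega : g ≠ 0)),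
      Real.log_prod (fun b hb => by
        have := hbpos b hb
        exact_mod_cast this.ne')]
    have h1 : ∑ b ∈ S, Real.log (b : ℝ) ≤ ∑ _b ∈ S, u ^ (1 / ε) :=
      Finset.sum_le_sum (fun b hb => (hSb b hb).2)
    rw [Finset.sum_const, nsmul_eq_mul] at h1
    have h2 : (S.card : ℝ) * u ^ (1 / ε) ≤ u * u ^ (1 / ε) := mul_le_mul_of_nonneg_right hSu hw0
    nlinarith
  -- the sets `D`
  have hDex : ∀ l : ℕ, ∃ (D : Finset ℕ) (D₀ : ℝ), l.Prime → (l : ℝ) ≤ Lam →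
      (GoodD t y D D₀ ∧ ∀ E : Finset ℕ, (E.card : ℝ) ≤ KZ t D₀ l / (64 * t) →
          ∃ k₀ : ℕ, k₀ ∉ E ∧ 1 ≤ k₀ ∧ (k₀ : ℝ) ≤ KZ t D₀ l ∧
            Real.exp (γ * t) ≤ ((DQ t l k₀ D).card : ℝ)) := by
    intro l
    by_cases h : l.Prime ∧ (l : ℝ) ≤ Lam
    · obtain ⟨D, D₀, h1, h2, h3, h4⟩ := hT2 t y num.tT2 num.ty num.yA l h.1 (h.2.trans num.LA)
      exact ⟨D, D₀, fun _ _ => ⟨⟨h1, h2, h3⟩, h4⟩⟩
    · exact ⟨∅, 0, fun h1 h2 => absurd ⟨h1, h2⟩ h⟩
  choose DD D0 hDD using hDex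
  set X := Real.exp (t + 2 * y * Real.log 4) with hX
  set Θ : Finset (ℕ × ℕ × ℕ × ℕ × ℕ) :=
    Icc 1 ⌊Lam⌋₊ ×ˢ (Icc 1 ⌊Real.exp t⌋₊ ×ˢ (Icc 1 ⌊X⌋₊ ×ˢ (BB S ⌊X⌋₊ ×ˢ range 3))) with hΘ
  have hLam0 : 0 ≤ Lam := by rw [hLam]; positivity
  have hΘc : (Θ.card : ℝ) ≤ Lam * (Real.exp t * (X * (X ^ S.card * 3))) := by
    rw [hΘ, card_product, card_product, card_product, card_product, Nat.card_Icc, Nat.card_Icc,
      Nat.card_Icc, card_range]
    simp only [Nat.add_sub_cancel]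
    push_cast
    have a1 := Nat.floor_le hLam0
    have a2 := Nat.floor_le (Real.exp_pos t).le
    have a3 := Nat.floor_le (show 0 ≤ X from (Real.exp_pos _).le)
    have a4 : ((BB S ⌊X⌋₊).card : ℝ) ≤ X ^ S.card := by
      calc ((BB S ⌊X⌋₊).card : ℝ) ≤ ((⌊X⌋₊ ^ S.card : ℕ) : ℝ) := by exact_mod_cast BB_card S _
        _ = (⌊X⌋₊ : ℝ) ^ S.card := by push_cast; rfl
        _ ≤ X ^ S.card := pow_le_pow_left₀ (by positivity) a3 _
    have hX0 : 0 ≤ X := (Real.exp_pos _).le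
    have b1 : (0 : ℝ) ≤ ((BB S ⌊X⌋₊).card : ℝ) * 3 := mul_nonneg (Nat.cast_nonneg _) (by norm_num)
    have b2 : (0 : ℝ) ≤ (⌊X⌋₊ : ℝ) * (((BB S ⌊X⌋₊).card : ℝ) * 3) :=
      mul_nonneg (Nat.cast_nonneg _) b1
    have b3 : (0 : ℝ) ≤ (⌊Real.exp t⌋₊ : ℝ) * ((⌊X⌋₊ : ℝ) * (((BB S ⌊X⌋₊).card : ℝ) * 3)) :=
      mul_nonneg (Nat.cast_nonneg _) b2
    exact mul_le_mul a1 (mul_le_mul a2 (mul_le_mul a3
      (mul_le_mul_of_nonneg_right a4 (by norm_num)) b1 hX0) b2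
      (Real.exp_pos _).le) b3 hLam0
  -- the inclusion
  have hincl : ExcS N S g r (u ^ (1 / ε)) (Real.exp (u ^ (1 - σ - ε)))
      ⊆ ↑(({1} : Finset ℕ) ∪ (Θ.filter (GoodS P t γ DD)).biUnion (FSS N P g r t DD)) := by
    intro x hx
    obtain ⟨hx1, hxN, a, B, m, k, hBS, hBc, ha, hm, hk, hkV, hcond0, heq⟩ := hx
    rw [coe_union, coe_singleton]
    set c := g * x + r with hc
    by_cases hc1 : c = 1
    · left
      have h1 : g * x ≤ 1 := by omega
      have h2 : x ≤ g * x := Nat.le_mul_of_pos_left x hg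
      rw [Set.mem_singleton_iff]
      omega
    right
    have hc2' : 2 ≤ c := by
      have h2 : x ≤ g * x := Nat.le_mul_of_pos_left x hg
      omega
    rw [mem_coe, mem_biUnion]
    have hlogc : Real.log c ≤ 2 * u ^ j := by
      have h1 : (c : ℝ) ≤ (g + r) * N := by
        rw [hc]
        push_cast
        have h2 : (x : ℝ) ≤ N := by exact_mod_cast hxN
        have h3 : (1 : ℝ) ≤ N := by exact_mod_cast hN0
        have h4 : (0 : ℝ) ≤ r := Nat.cast_nonneg r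
        have h5 : (0 : ℝ) ≤ g := Nat.cast_nonneg g
        nlinarith
      have h2 : (0 : ℝ) < (g : ℝ) + r := by
        have : (1 : ℝ) ≤ g := by exact_mod_cast hg
        have h4 : (0 : ℝ) ≤ r := Nat.cast_nonneg r
        linarith
      calc Real.log c ≤ Real.log ((g + r) * N) :=
            Real.log_le_log (by exact_mod_cast (by omega : 0 < c)) h1
        _ = Real.log (g + r) + u := by rw [Real.log_mul h2.ne' hNr.ne']
        _ ≤ 2 * u ^ j := by linarith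
    have hB1 : 1 ≤ B := by
      obtain ⟨n, hn⟩ := closure_prod hBS
      rw [hn]
      exact Finset.prod_pos (fun b hb => pow_pos (hbpos b hb) _)
    -- the prime exponent
    have hls : ∃ l s : ℕ, l.Prime ∧ (l : ℝ) ≤ Lam ∧ a ^ m = s ^ l := by
      rcases hcond0 with ⟨p, hp, ⟨m', hm'⟩, hpw⟩ | hcond
      · refine ⟨p, a ^ m', hp, hpw.trans (hwj.trans ?_), by rw [hm', mul_comm, pow_mul]⟩
        exact pow_le_pow_right₀ hu1 (by omega)
      by_cases ha1 : a = 1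
      · refine ⟨2, 1, Nat.prime_two, ?_, by rw [ha1]; simp⟩
        have h1 : u ^ (1 : ℕ) ≤ u ^ (4 * j + 1 : ℕ) := pow_le_pow_right₀ hu1 (by omega)
        rw [pow_one] at h1
        push_cast; linarith
      · have hl := Nat.minFac_prime (show m ≠ 1 by omega)
        obtain ⟨m', hm'⟩ := Nat.minFac_dvd m
        set l := m.minFac with hldef
        have ham : a ^ m = (a ^ m') ^ l := by
          conv_lhs => rw [hm', mul_comm, pow_mul]
        by_cases hlL : (l : ℝ) ≤ Lam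
        · exact ⟨l, a ^ m', hl, hlL, ham⟩
        · exfalso
          rw [not_le] at hlL
          have hm0 : m' ≠ 0 := by
            rintro rfl
            rw [mul_zero] at hm'; omega
          have ha2 : 2 ≤ a ^ m' := by
            calc 2 ≤ a := by omega
              _ = a ^ 1 := (pow_one a).symm
              _ ≤ a ^ m' := Nat.pow_le_pow_right (by omega) (by omega)
          have hthr := num.hi l hlL
          have hl1r : (1 : ℝ) ≤ l := by exact_mod_cast hl.one_lt.le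
          have hthr' : ∀ C0 : ℝ, 1 ≤ C0 → C0 ≤ max C1 C2 →
              C0 * (u ^ (1 / ε)) ^ 2 * (2 * u ^ j) ^ 2 * (1 + Real.log l) ^ 2 < l := by
            intro C0 h01 h0
            refine lt_of_le_of_lt ?_ hthr
            calc C0 * (u ^ (1 / ε)) ^ 2 * (2 * u ^ j) ^ 2 * (1 + Real.log l) ^ 2
                ≤ max C1 C2 * (u ^ j) ^ 2 * (2 * u ^ j) ^ 2 * (1 + Real.log l) ^ 2 := by gcongr
              _ = C * u ^ (4 * j) * (1 + Real.log l) ^ 2 := by rw [hC]; ring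
          have hU1 : (1 : ℝ) ≤ 2 * u ^ j := by
            have := one_le_pow₀ (n := j) hu1
            linarith
          rw [ham] at heq
          -- the general case, by STEPG
          have hG : ∀ p : ℕ, p.Prime → (p : ℝ) ≤ u ^ (1 / ε) →
              Real.log B ≤ (padicValNat p B : ℝ) * (2 * u ^ j) → False := by
            intro p hp hpw hval
            have h := hsg (a ^ m') B c k l p (u ^ (1 / ε)) (2 * u ^ j) ha2 hB1 hc2' hBc hk hl hp
              (by linarith) hpw hU1 hlogc hval (hthr' C2 hC2 (le_max_right _ _))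
            rcases heq with h1 | h1 | h1
            · exact h.1 h1
            · exact h.2.1 h1
            · exact h.2.2 h1
          rcases hcond with hcA | ⟨hcard, p, hp, hpc, hpw⟩
          · obtain ⟨p, hp, hpw, hval⟩ := exists_val hBS (w := u ^ (1 / ε)) (V := u ^ (1 / ε))
              (by linarith) hw0 hSb hcA
            refine hG p hp hpw (hval.trans ?_)
            apply mul_le_mul_of_nonneg_left _ (Nat.cast_nonneg _)
            have h2 : (S.card : ℝ) * u ^ (1 / ε) ≤ u * u ^ (1 / ε) :=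
              mul_le_mul_of_nonneg_right hSu hw0
            have h3 : 0 ≤ u ^ j := by positivity
            linarith
          · obtain ⟨b, hb⟩ := Finset.card_eq_one.mp hcard
            obtain ⟨n, hn⟩ := closure_prod hBS
            rw [hb, Finset.prod_singleton] at hn
            have hbS : b ∈ S := by rw [hb]; exact mem_singleton_self b
            by_cases hn0 : n b = 0
            · rw [hn0, pow_zero] at hn
              refine hG 2 Nat.prime_two (by push_cast; linarith) ?_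
              rw [hn]
              simp
            · have hn1 : 1 ≤ n b := by omega
              have hbc : Nat.Coprime b c := by
                rw [hn] at hBc
                exact (Nat.coprime_pow_left_iff (by omega) _ _).mp hBc
              have h := hst (a ^ m') b c (n b) k l p (u ^ (1 / ε)) (2 * u ^ j) ha2 (hSb b hbS).1
                hc2' hbc hn1 hk hl hp (Dvd.dvd.mul_left hpc b) (by linarith) hpw hU1
                ((hSb b hbS).2.trans (by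
                  have : 0 ≤ u ^ j := by positivity
                  linarith)) hlogc (hthr' C1 hC1 (le_max_left _ _))
              rw [hn] at heq
              rcases heq with h1 | h1 | h1
              · exact h.1 h1
              · exact h.2.1 h1
              · exact h.2.2 h1
    obtain ⟨l, s, hlp, hlL, has⟩ := hls
    have hl1 : 1 ≤ l := hlp.one_lt.le
    rw [has] at heq
    obtain ⟨hGD, hDE⟩ := hDD l hlp hlL
    obtain ⟨k₀, hk01, hkK, hcard, hgcd, hk09⟩ := good_k0S num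
      (fun t K h1 h2 h3 k h4 h5 => hT1 t K h1 h2 h3 k h4 h5) hGD hDE hl1 hlL hP0 hPu hk hkV
    obtain ⟨hK1, hK2, hK3⟩ := KZ_bounds hl1 hlL hGD.1 hGD.2.1 num.hd
    have hy0 : 0 ≤ y := by linarith
    have hprodpos : 0 < ∏ r ∈ PY y, r :=
      Finset.prod_pos fun r hr => (mem_PY hy0 hr).1.pos
    have hLM0 : 0 < LM y l k₀ := by
      unfold LM
      have : 0 < l := hl1
      have : 0 < k₀ := hk01
      positivity
    have hLMX : (LM y l k₀ : ℝ) ≤ X := by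
      unfold LM
      push_cast
      have h1 := prod_PY_le hy0
      push_cast at h1
      have h2 : (2 : ℝ) * l * k₀ ≤ Real.exp t := by
        refine le_trans ?_ hK3
        apply mul_le_mul_of_nonneg_left hkK (by positivity)
      rw [hX, Real.exp_add]
      apply mul_le_mul h2 h1 (by positivity) (Real.exp_pos _).le
    set κ := (k - 1) % LM y l k₀ + 1 with hκ
    have hκL : κ ≤ LM y l k₀ := by
      have := Nat.mod_lt (k - 1) hLM0
      omega
    have hκX : κ ≤ ⌊X⌋₊ := Nat.le_floor ((Nat.cast_le.mpr hκL).trans hLMX)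
    obtain ⟨B', hB', hBq⟩ := closure_red hBS hLM0 (Nat.le_floor hLMX)
    have hBq' : ∀ q ∈ Qs t P l k₀ (DD l), (B : ZMod q) = (B' : ZMod q) ∧ ¬ q ∣ B' := by
      intro q hq
      exact hBq q (mem_Qs hq).1 (Qs_dvd hGD hq) (fun b hb hqb => (mem_Qs hq).2.2.1 (hqb.trans (hbP b hb)))
    -- the sign
    have key : ∃ σ < 3, ∀ q ∈ Qs t P l k₀ (DD l), ∃ s : ZMod q,
        (c : ZMod q) ^ κ + ((sβ σ * (B' : ℤ) : ℤ) : ZMod q) = ((sρ σ : ℤ) : ZMod q) * s ^ l := by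
      rcases heq with h1 | h1 | h1
      · refine ⟨0, by norm_num, fun q hq => ⟨(s : ZMod q), ?_⟩⟩
        have h2 := congrArg (fun z : ℕ => (z : ZMod q)) h1
        push_cast at h2
        rw [pow_red (mem_Qs hq).1 hLM0 (Qs_dvd hGD hq) hk, (hBq' q hq).1] at h2
        rw [← hκ] at h2
        rw [show sβ 0 = -1 from rfl, show sρ 0 = 1 from rfl]
        push_cast
        rw [← h2]; ring
      · refine ⟨1, by norm_num, fun q hq => ⟨(s : ZMod q), ?_⟩⟩
        have h2 := congrArg (fun z : ℕ => (z : ZMod q)) h1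
        push_cast at h2
        rw [pow_red (mem_Qs hq).1 hLM0 (Qs_dvd hGD hq) hk, (hBq' q hq).1] at h2
        rw [← hκ] at h2
        rw [show sβ 1 = 1 from rfl, show sρ 1 = 1 from rfl]
        push_cast
        rw [one_mul, one_mul, ← h2]; ring
      · refine ⟨2, by norm_num, fun q hq => ⟨(s : ZMod q), ?_⟩⟩
        have h2 := congrArg (fun z : ℕ => (z : ZMod q)) h1
        push_cast at h2
        rw [pow_red (mem_Qs hq).1 hLM0 (Qs_dvd hGD hq) hk, (hBq' q hq).1] at h2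
        rw [← hκ] at h2
        rw [show sβ 2 = -1 from rfl, show sρ 2 = -1 from rfl]
        push_cast
        rw [← h2]; ring
    obtain ⟨τ, hτ, hτq⟩ := key
    refine ⟨(l, k₀, κ, B', τ), ?_, ?_⟩
    · rw [mem_filter, hΘ, mem_product, mem_product, mem_product, mem_product, mem_Icc, mem_Icc,
        mem_Icc, mem_range]
      refine ⟨⟨⟨hl1, Nat.le_floor hlL⟩, ⟨hk01, Nat.le_floor (hkK.trans hK2)⟩,
        ⟨Nat.le_add_left 1 _, hκX⟩, hB', hτ⟩, ?_⟩
      refine ⟨hlp, Nat.le_add_left 1 _, hcard, ?_, ?_⟩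
      · intro q hq
        show 400 * (Nat.gcd κ (q - 1)) ^ 2 ≤ q
        rw [hκ, gcd_red hLM0 (Qs_dvd hGD hq) hk]
        exact gcd_smallS num hGD hl1 hlL hgcd hk09 hk01 hq
      · intro q hq
        exact (hBq' q hq).2
    · unfold FSS
      rw [mem_filter, mem_Icc]
      exact ⟨⟨hx1, hxN⟩, hτq⟩
  have hX0 : 0 ≤ X := (Real.exp_pos _).le
  have hcardU : ((({1} : Finset ℕ) ∪ (Θ.filter (GoodS P t γ DD)).biUnion (FSS N P g r t DD)).card : ℝ)
      ≤ 1 + (Lam * (Real.exp t * (X * (X ^ S.card * 3)))) * (2 * Real.exp ((1 - γ1) * u)) := by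
    have h1 : ((({1} : Finset ℕ) ∪ (Θ.filter (GoodS P t γ DD)).biUnion (FSS N P g r t DD)).card : ℝ)
        ≤ 1 + ∑ θ ∈ Θ.filter (GoodS P t γ DD), ((FSS N P g r t DD θ).card : ℝ) := by
      have h2 : (({1} : Finset ℕ) ∪ (Θ.filter (GoodS P t γ DD)).biUnion (FSS N P g r t DD)).card
          ≤ 1 + ∑ θ ∈ Θ.filter (GoodS P t γ DD), (FSS N P g r t DD θ).card := by
        refine (card_union_le _ _).trans ?_
        rw [card_singleton]
        exact Nat.add_le_add_left card_biUnion_le _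
      exact_mod_cast h2
    refine h1.trans ?_
    have h3 : ∑ θ ∈ Θ.filter (GoodS P t γ DD), ((FSS N P g r t DD θ).card : ℝ)
        ≤ ∑ _θ ∈ Θ.filter (GoodS P t γ DD), (2 * Real.exp ((1 - γ1) * u)) := by
      apply Finset.sum_le_sum
      intro θ hθ
      exact FSS_card hL hM num hγ hγ1 hg1 hg2 hgP hNe DD θ (mem_filter.mp hθ).2
    rw [Finset.sum_const, nsmul_eq_mul] at h3
    have h4 : ((Θ.filter (GoodS P t γ DD)).card : ℝ)
        ≤ Lam * (Real.exp t * (X * (X ^ S.card * 3))) := by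
      refine le_trans ?_ hΘc
      exact_mod_cast card_filter_le _ _
    have h5 : ((Θ.filter (GoodS P t γ DD)).card : ℝ) * (2 * Real.exp ((1 - γ1) * u))
        ≤ (Lam * (Real.exp t * (X * (X ^ S.card * 3)))) * (2 * Real.exp ((1 - γ1) * u)) :=
      mul_le_mul_of_nonneg_right h4 (by positivity)
    linarith
  have hsy : ((S.card : ℝ) + 1) * (4 * y) ≤ 8 * u ^ (1 - ε / 4) := by
    have h1 : (S.card : ℝ) + 1 ≤ 2 * u ^ σ := by linarith
    have h2 : u ^ σ * y = u ^ (1 - ε / 4) := by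
      rw [hy, ← Real.rpow_add hu0']
      congr 1
      rw [hα]; ring
    calc ((S.card : ℝ) + 1) * (4 * y) ≤ (2 * u ^ σ) * (4 * y) :=
          mul_le_mul_of_nonneg_right h1 (by linarith)
      _ = 8 * (u ^ σ * y) := by ring
      _ = _ := by rw [h2]
  have hfin := count_numS num hγ1 hg2 hLam S.card hsy
  have h1 : (ExcS N S g r (u ^ (1 / ε)) (Real.exp (u ^ (1 - σ - ε)))).ncard
      ≤ (({1} : Finset ℕ) ∪ (Θ.filter (GoodS P t γ DD)).biUnion (FSS N P g r t DD)).card := by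
    have := Set.ncard_le_ncard hincl (Finset.finite_toSet _)
    rwa [Set.ncard_coe_finset] at this
  have h2 : ((ExcS N S g r (u ^ (1 / ε)) (Real.exp (u ^ (1 - σ - ε)))).ncard : ℝ)
      ≤ ((({1} : Finset ℕ) ∪ (Θ.filter (GoodS P t γ DD)).biUnion (FSS N P g r t DD)).card : ℝ) := by
    exact_mod_cast h1
  have h3 : (N : ℝ) ^ (1 - γ1 / 2) = Real.exp ((1 - γ1 / 2) * u) := by
    rw [hNe, ← Real.exp_mul, mul_comm]
  rw [h3]
  exact h2.trans (hcardU.trans hfin)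

end Pool.Agent.Work.MP_2738db_nt_Z.helper40
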