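import Pool.Agent.Work.MP_2738db_nt_Z_helper40.Num

set_option autoImplicit false

namespace Pool.Agent.Work.MP_2738db_nt_Z.helper40

open Finset Filter
open Pool.Agent.Work.MP_2738db_nt_U (PY LM)
open Pool.Agent.Work.MP_2738db_nt_U.helper40 (pow_red gcd_red prod_PY_le mem_PY omega_le)

/-- the properties of `D` -/
def GoodD (t y : ℝ) (D : Finset ℕ) (D₀ : ℝ) : Prop :=
  1 ≤ D₀ ∧ D₀ ≤ Real.exp (t / 40) ∧
    ∀ d ∈ D, D₀ ≤ d ∧ (d : ℝ) ≤ 2 * D₀ ∧ d ∣ ∏ r ∈ PY y, r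

/-- the sieving primes -/
noncomputable def Qs (t : ℝ) (b l k₀ : ℕ) (D : Finset ℕ) : Finset ℕ :=
  ((DQ t l k₀ D).image (fun d => 1 + 2 * l * d * k₀)).filter (fun q => ¬ q ∣ b)

lemma mem_Qs {t : ℝ} {b l k₀ : ℕ} {D : Finset ℕ} {q : ℕ} (hq : q ∈ Qs t b l k₀ D) :
    q.Prime ∧ (q : ℝ) ≤ Real.exp t ∧ ¬ q ∣ b ∧ ∃ d ∈ D, q = 1 + 2 * l * d * k₀ := by
  unfold Qs DQ at hq
  rw [mem_filter, mem_image] at hq
  obtain ⟨⟨d, hd, rfl⟩, hqb⟩ := hq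
  rw [mem_filter] at hd
  exact ⟨hd.2.1, hd.2.2, hqb, d, hd.1, rfl⟩

lemma Qs_card {t : ℝ} {b l k₀ : ℕ} (D : Finset ℕ) (hb : 0 < b) (hl : 1 ≤ l) (hk : 1 ≤ k₀) :
    ((DQ t l k₀ D).card : ℝ) ≤ (Qs t b l k₀ D).card + 2 * Real.log b := by
  classical
  set S := (DQ t l k₀ D).image (fun d => 1 + 2 * l * d * k₀) with hS
  have h1 : S.card = (DQ t l k₀ D).card := by
    apply Finset.card_image_of_injOn
    intro d _ d' _ h
    have h' : 1 + 2 * l * d * k₀ = 1 + 2 * l * d' * k₀ := h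
    have h2 : (2 * l * k₀) * d = (2 * l * k₀) * d' := by
      have e1 : 2 * l * d * k₀ = (2 * l * k₀) * d := by ring
      have e2 : 2 * l * d' * k₀ = (2 * l * k₀) * d' := by ring
      rw [← e1, ← e2]; omega
    exact Nat.eq_of_mul_eq_mul_left (by positivity) h2
  have h2 : (S.filter (fun q => q ∣ b)).card ≤ b.primeFactors.card := by
    apply Finset.card_le_card
    intro q hq
    rw [mem_filter] at hq
    rw [hS, mem_image] at hq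
    obtain ⟨⟨d, hd, rfl⟩, hqb⟩ := hq
    unfold DQ at hd
    rw [mem_filter] at hd
    exact Nat.mem_primeFactors.mpr ⟨hd.2.1, hqb, hb.ne'⟩
  have h3 := Finset.card_filter_add_card_filter_not (s := S) (fun q => q ∣ b)
  have h4 := omega_le hb
  have h5 : ((S.filter (fun q => q ∣ b)).card : ℝ) ≤ b.primeFactors.card := by exact_mod_cast h2
  have h6 : ((S.filter (fun q => q ∣ b)).card : ℝ) + ((S.filter (fun q => ¬ q ∣ b)).card : ℝ)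
      = S.card := by exact_mod_cast h3
  have h7 : (Qs t b l k₀ D).card = (S.filter (fun q => ¬ q ∣ b)).card := rfl
  rw [h7, ← h1]
  linarith

lemma Qs_dvd {t y : ℝ} {b l k₀ : ℕ} {D : Finset ℕ} {D₀ : ℝ} (hD : GoodD t y D D₀) {q : ℕ}
    (hq : q ∈ Qs t b l k₀ D) : q - 1 ∣ LM y l k₀ := by
  obtain ⟨_, _, _, d, hd, h4⟩ := mem_Qs hq
  obtain ⟨e, he⟩ := (hD.2.2 d hd).2.2
  refine ⟨e, ?_⟩
  unfold LM
  rw [he, h4]
  have : 1 + 2 * l * d * k₀ - 1 = 2 * l * d * k₀ := by omega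
  rw [this]; ring

lemma KZ_bounds {t D₀ Lam : ℝ} {l : ℕ} (hl : 1 ≤ l) (hlL : (l : ℝ) ≤ Lam)
    (hD1 : 1 ≤ D₀) (hD2 : D₀ ≤ Real.exp (t / 40))
    (hd : 2 * Lam * Real.exp (t / 40) ≤ Real.exp (t / 2)) :
    Real.exp (t / 2) ≤ KZ t D₀ l ∧ KZ t D₀ l ≤ Real.exp t ∧ 2 * l * KZ t D₀ l ≤ Real.exp t := by
  have hlr : (1 : ℝ) ≤ l := by exact_mod_cast hl
  have h1 : 2 * (l : ℝ) * D₀ ≤ Real.exp (t / 2) := by
    refine le_trans ?_ hd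
    apply mul_le_mul (by linarith) hD2 (by linarith) (by linarith)
  have h0 : 0 < 2 * (l : ℝ) * D₀ := by positivity
  have hE := Real.exp_pos t
  unfold KZ
  refine ⟨?_, ?_, ?_⟩
  · rw [le_div_iff₀ h0]
    calc Real.exp (t / 2) * (2 * l * D₀) ≤ Real.exp (t / 2) * Real.exp (t / 2) :=
          mul_le_mul_of_nonneg_left h1 (Real.exp_pos _).le
      _ = Real.exp t := by rw [← Real.exp_add]; congr 1; ring
  · rw [div_le_iff₀ h0]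
    have h2 : 1 ≤ 2 * (l : ℝ) * D₀ := by nlinarith
    nlinarith
  · rw [mul_div_assoc', div_le_iff₀ h0]
    have h2 : 2 * (l : ℝ) ≤ 2 * (l : ℝ) * D₀ := by nlinarith
    calc 2 * (l : ℝ) * Real.exp t ≤ (2 * (l : ℝ) * D₀) * Real.exp t :=
          mul_le_mul_of_nonneg_right h2 hE.le
      _ = _ := by ring

/-- existence of a good `k₀` -/
lemma good_k0 {ε C T1 T2 γ γ1 : ℝ} {j A : ℕ} {u t y Lam : ℝ}
    (num : NumZ ε C T1 T2 γ γ1 j A u t y Lam)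
    (hT1 : ∀ t K : ℝ, T1 ≤ t → Real.exp (t / 2) ≤ K → K ≤ Real.exp t → ∀ k : ℕ, 1 ≤ k →
      Real.log k ≤ Real.exp (t ^ (1 - ε / 2)) →
      (((Icc 1 ⌊K⌋₊).filter (fun k₀ => K ^ (3 / 10 : ℝ) < (Nat.gcd k k₀ : ℝ))).card : ℝ)
        ≤ K / (256 * t))
    {l : ℕ} {D : Finset ℕ} {D₀ : ℝ} (hD : GoodD t y D D₀)
    (hDE : ∀ E : Finset ℕ, (E.card : ℝ) ≤ KZ t D₀ l / (64 * t) →
          ∃ k₀ : ℕ, k₀ ∉ E ∧ 1 ≤ k₀ ∧ (k₀ : ℝ) ≤ KZ t D₀ l ∧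
            Real.exp (γ * t) ≤ ((DQ t l k₀ D).card : ℝ))
    {b k : ℕ} (hl : 1 ≤ l) (hlL : (l : ℝ) ≤ Lam) (hb : 2 ≤ b) (hbu : Real.log b ≤ u ^ j)
    (hk : 1 ≤ k) (hkt : Real.log k ≤ Real.exp (u ^ (1 - ε))) :
    ∃ k₀ : ℕ, 1 ≤ k₀ ∧ (k₀ : ℝ) ≤ KZ t D₀ l ∧
      Real.exp (γ * t) / 2 ≤ ((Qs t b l k₀ D).card : ℝ) ∧
      (Nat.gcd k k₀ : ℝ) ≤ (KZ t D₀ l) ^ (3 / 10 : ℝ) ∧ (KZ t D₀ l) ^ (9 / 10 : ℝ) ≤ k₀ := by
  classical
  obtain ⟨hK1, hK2, hK3⟩ := KZ_bounds hl hlL hD.1 hD.2.1 num.hd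
  set K := KZ t D₀ l with hK
  have ht1 := num.t4
  have ht0 : 0 < t := by linarith
  have hKpos : 0 < K := lt_of_lt_of_le (Real.exp_pos _) hK1
  set E1 := (Icc 1 ⌊K⌋₊).filter (fun k₀ => K ^ (3 / 10 : ℝ) < (Nat.gcd k k₀ : ℝ)) with hE1
  set E2 := Icc 1 ⌊K ^ (9 / 10 : ℝ)⌋₊ with hE2
  have c1 : (E1.card : ℝ) ≤ K / (256 * t) :=
    hT1 t K num.tT1 hK1 hK2 k hk (hkt.trans (Real.exp_le_exp.mpr num.hk))
  have c2 : (E2.card : ℝ) ≤ K / (512 * t) := by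
    have h1 : (E2.card : ℝ) ≤ K ^ (9 / 10 : ℝ) := by
      rw [hE2, Nat.card_Icc, Nat.add_sub_cancel]
      exact Nat.floor_le (Real.rpow_nonneg hKpos.le _)
    have h2 : 512 * t ≤ K ^ (1 / 10 : ℝ) := by
      refine num.he.trans ?_
      calc Real.exp (t / 20) = (Real.exp (t / 2)) ^ (1 / 10 : ℝ) := by
            rw [← Real.exp_mul]; congr 1; ring
        _ ≤ K ^ (1 / 10 : ℝ) := Real.rpow_le_rpow (Real.exp_pos _).le hK1 (by norm_num)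
    refine h1.trans ?_
    rw [le_div_iff₀ (by positivity)]
    calc K ^ (9 / 10 : ℝ) * (512 * t) ≤ K ^ (9 / 10 : ℝ) * K ^ (1 / 10 : ℝ) :=
          mul_le_mul_of_nonneg_left h2 (Real.rpow_nonneg hKpos.le _)
      _ = K := by rw [← Real.rpow_add hKpos]; norm_num
  have cE : (((E1 ∪ E2 : Finset ℕ)).card : ℝ) ≤ K / (64 * t) := by
    have h1 : ((E1 ∪ E2 : Finset ℕ)).card ≤ E1.card + E2.card := card_union_le _ _
    have h2 : (((E1 ∪ E2 : Finset ℕ)).card : ℝ) ≤ E1.card + E2.card := by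
      exact_mod_cast h1
    have h3 : K / (256 * t) + K / (512 * t) ≤ K / (64 * t) := by
      have : K / (256 * t) + K / (512 * t) = (3 / 8) * (K / (64 * t)) := by
        field_simp; ring
      rw [this]
      have : 0 ≤ K / (64 * t) := by positivity
      linarith
    linarith
  obtain ⟨k₀, hk0, hk1, hkK, hcard⟩ := hDE _ cE
  rw [mem_union, not_or] at hk0
  obtain ⟨n1, n2⟩ := hk0
  have hmem : k₀ ∈ Icc 1 ⌊K⌋₊ := by
    rw [mem_Icc]; exact ⟨hk1, Nat.le_floor hkK⟩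
  refine ⟨k₀, hk1, hkK, ?_, ?_, ?_⟩
  · have h1 := Qs_card (t := t) (b := b) (l := l) (k₀ := k₀) D (by omega) hl hk1
    have h2 := num.hb
    linarith
  · by_contra h
    rw [not_le] at h
    exact n1 (mem_filter.mpr ⟨hmem, h⟩)
  · by_contra h
    rw [not_le] at h
    exact n2 (mem_Icc.mpr ⟨hk1, Nat.le_floor h.le⟩)

/-- the sieving primes are large compared with the common divisor of `q - 1` and `k` -/
lemma gcd_small {ε C T1 T2 γ γ1 : ℝ} {j A : ℕ} {u t y Lam : ℝ}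
    (num : NumZ ε C T1 T2 γ γ1 j A u t y Lam)
    {b l k k₀ q : ℕ} {D : Finset ℕ} {D₀ : ℝ} (hD : GoodD t y D D₀) (hl : 1 ≤ l)
    (hlL : (l : ℝ) ≤ Lam)
    (hgcd : (Nat.gcd k k₀ : ℝ) ≤ (KZ t D₀ l) ^ (3 / 10 : ℝ)) (hk0 : (KZ t D₀ l) ^ (9 / 10 : ℝ) ≤ k₀)
    (hk01 : 1 ≤ k₀) (hq : q ∈ Qs t b l k₀ D) : 400 * (Nat.gcd k (q - 1)) ^ 2 ≤ q := by
  obtain ⟨hK1, hK2, hK3⟩ := KZ_bounds hl hlL hD.1 hD.2.1 num.hd
  set K := KZ t D₀ l with hK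
  have hKpos : 0 < K := lt_of_lt_of_le (Real.exp_pos _) hK1
  obtain ⟨hqp, _, _, d, hd, h4⟩ := mem_Qs hq
  obtain ⟨d1, d2, _⟩ := hD.2.2 d hd
  have hD1 := hD.1
  have hlr : (1 : ℝ) ≤ l := by exact_mod_cast hl
  have hd0 : 0 < d := by
    have : (0 : ℝ) < d := by linarith
    exact_mod_cast this
  have hq1 : q - 1 = (2 * l * d) * k₀ := by rw [h4]; omega
  have g1 : Nat.gcd k (q - 1) ≤ (2 * l * d) * Nat.gcd k k₀ := by
    rw [hq1]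
    have hX : 0 < 2 * l * d := by positivity
    calc Nat.gcd k ((2 * l * d) * k₀)
        ≤ Nat.gcd k (2 * l * d) * Nat.gcd k k₀ :=
          Nat.le_of_dvd (Nat.mul_pos (Nat.gcd_pos_of_pos_right _ hX) (Nat.gcd_pos_of_pos_right _ hk01))
            (Nat.gcd_mul_right_dvd_mul_gcd _ _ _)
      _ ≤ _ := Nat.mul_le_mul_right _ (Nat.le_of_dvd hX (Nat.gcd_dvd_right _ _))
  have g2 : (Nat.gcd k (q - 1) : ℝ) ≤ 4 * l * D₀ * K ^ (3 / 10 : ℝ) := by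
    have h5 : (Nat.gcd k (q - 1) : ℝ) ≤ (2 * l * d) * Nat.gcd k k₀ := by exact_mod_cast g1
    refine h5.trans ?_
    apply mul_le_mul _ hgcd (by positivity) (by positivity)
    calc (2 : ℝ) * l * d ≤ 2 * l * (2 * D₀) := by gcongr
      _ = _ := by ring
  have g3 : 2 * l * D₀ * K ^ (9 / 10 : ℝ) ≤ q := by
    have h5 : (q : ℝ) = 1 + 2 * l * d * k₀ := by rw [h4]; push_cast; ring
    rw [h5]
    have h6 : 2 * l * D₀ * K ^ (9 / 10 : ℝ) ≤ 2 * l * d * k₀ := by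
      have h8 : 0 ≤ K ^ (9 / 10 : ℝ) := Real.rpow_nonneg hKpos.le _
      gcongr
    linarith
  have hK3' : 3200 * (l * D₀) ≤ K ^ (3 / 10 : ℝ) := by
    have h1 : 3200 * (l * D₀) ≤ (3200 * Lam) * Real.exp (t / 40) := by
      have : (l : ℝ) * D₀ ≤ Lam * Real.exp (t / 40) :=
        mul_le_mul hlL hD.2.1 (by linarith) (by linarith)
      linarith
    refine h1.trans ?_
    calc (3200 * Lam) * Real.exp (t / 40) ≤ Real.exp (t / 8) * Real.exp (t / 40) :=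
          mul_le_mul_of_nonneg_right num.hg (Real.exp_pos _).le
      _ = (Real.exp (t / 2)) ^ (3 / 10 : ℝ) := by
          rw [← Real.exp_mul, ← Real.exp_add]; congr 1; ring
      _ ≤ K ^ (3 / 10 : ℝ) := Real.rpow_le_rpow (Real.exp_pos _).le hK1 (by norm_num)
  have hfin : (400 : ℝ) * (Nat.gcd k (q - 1) : ℝ) ^ 2 ≤ q := by
    have e0 : 0 ≤ K ^ (3 / 10 : ℝ) := Real.rpow_nonneg hKpos.le _
    have e1 : (K ^ (3 / 10 : ℝ)) ^ 2 * K ^ (3 / 10 : ℝ) = K ^ (9 / 10 : ℝ) := by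
      rw [← Real.rpow_natCast, ← Real.rpow_mul hKpos.le, ← Real.rpow_add hKpos]
      norm_num
    calc (400 : ℝ) * (Nat.gcd k (q - 1) : ℝ) ^ 2 ≤ 400 * (4 * l * D₀ * K ^ (3 / 10 : ℝ)) ^ 2 := by
          gcongr
      _ = (2 * l * D₀) * ((3200 * (l * D₀)) * (K ^ (3 / 10 : ℝ)) ^ 2) := by ring
      _ ≤ (2 * l * D₀) * (K ^ (3 / 10 : ℝ) * (K ^ (3 / 10 : ℝ)) ^ 2) := by
          apply mul_le_mul_of_nonneg_left _ (by positivity)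
          apply mul_le_mul_of_nonneg_right hK3' (by positivity)
      _ = 2 * l * D₀ * K ^ (9 / 10 : ℝ) := by rw [← e1]; ring
      _ ≤ q := g3
  exact_mod_cast hfin

/-- one set of the union bound -/
lemma one_set (hL : MP_2738db_nt_U.Stmt_Loc) (hM : Stmt_Mom) {N l κ z r : ℕ} (hlp : l.Prime)
    (hκ : 1 ≤ κ)
    (Q : Finset ℕ) (hQ : ∀ q ∈ Q, q.Prime) (hQz : ∀ q ∈ Q, q ≤ z) (hQl : ∀ q ∈ Q, l ∣ q - 1)
    (hQg : ∀ q ∈ Q, 400 * (Nat.gcd κ (q - 1)) ^ 2 ≤ q) (hQne : Q.Nonempty) (hr : 1 ≤ r)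
    (β ρ : ℤ) (hβ : ∀ q ∈ Q, (β : ZMod q) ≠ 0) (hρ : ∀ q ∈ Q, (ρ : ZMod q) ≠ 0) :
    (({c : ℕ | 1 ≤ c ∧ c ≤ N ∧ ∀ q ∈ Q, ∃ s : ZMod q,
      (c : ZMod q) ^ κ + (β : ZMod q) = (ρ : ZMod q) * s ^ l}.ncard : ℕ) : ℝ)
      ≤ N * (36 * (r : ℝ) ^ 2 / Q.card) ^ r + (36 * (z : ℝ) ^ 2) ^ r := by
  have h1 := hM Q z N r (fun q hq => ⟨hQ q hq, hQz q hq⟩) hQne hr (fun q c => ∃ s : ZMod q,
      (c : ZMod q) ^ κ + (β : ZMod q) = (ρ : ZMod q) * s ^ l) (by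
    intro q _ c c' hcc h
    rw [← hcc]; exact h) (by
    intro q hq
    haveI : Fact q.Prime := ⟨hQ q hq⟩
    have h2 := hL q l κ (hQ q hq) hlp (hQl q hq) hκ (hQg q hq) (β : ZMod q) (ρ : ZMod q) (hβ q hq) (hρ q hq)
    refine le_trans (Nat.mul_le_mul_left 6 ?_) h2
    apply Nat.card_le_card_of_injective
      (fun x : {x : Fin q // ∃ s : ZMod q, (((x : Fin q) : ℕ) : ZMod q) ^ κ + (β : ZMod q) = (ρ : ZMod q) * s ^ l} =>
        (⟨(((x : Fin q) : ℕ) : ZMod q), x.2⟩ : {x : ZMod q // ∃ s : ZMod q, x ^ κ + (β : ZMod q) = (ρ : ZMod q) * s ^ l}))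
    intro x x' hxx
    have h3 : (((x : Fin q) : ℕ) : ZMod q) = (((x' : Fin q) : ℕ) : ZMod q) := congrArg Subtype.val hxx
    have h4 := (ZMod.natCast_eq_natCast_iff' _ _ _).mp h3
    rw [Nat.mod_eq_of_lt x.1.2, Nat.mod_eq_of_lt x'.1.2] at h4
    exact Subtype.ext (Fin.ext h4))
  exact h1

end Pool.Agent.Work.MP_2738db_nt_Z.helper40
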