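import Pool.Agent.Work.MP_2738db_nt_Z_helper40.Num2
import Pool.Agent.Work.MP_2738db_nt_Z_helper40.FIN

set_option autoImplicit false

namespace Pool.Agent.Work.MP_2738db_nt_Z.helper40

open Finset Filter
open Pool.Agent.Work.MP_2738db_nt_U (PY LM)
open Pool.Agent.Work.MP_2738db_nt_U.helper40 (pow_red gcd_red prod_PY_le mem_PY omega_le)

/-- existence of a good `k₀` -/
lemma good_k0S {ε α C T1 T2 γ γ1 : ℝ} {j A : ℕ} {u t y Lam : ℝ}
    (num : NumS ε α C T1 T2 γ γ1 j A u t y Lam)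
    (hT1 : ∀ t K : ℝ, T1 ≤ t → Real.exp (t / 2) ≤ K → K ≤ Real.exp t → ∀ k : ℕ, 1 ≤ k →
      (k.primeFactors.card : ℝ) ≤ Real.exp (t ^ (1 - ε / 2)) →
      (((Icc 1 ⌊K⌋₊).filter (fun k₀ => K ^ (3 / 10 : ℝ) < (Nat.gcd k k₀ : ℝ))).card : ℝ)
        ≤ K / (256 * t))
    {l : ℕ} {D : Finset ℕ} {D₀ : ℝ} (hD : GoodD t y D D₀)
    (hDE : ∀ E : Finset ℕ, (E.card : ℝ) ≤ KZ t D₀ l / (64 * t) →
          ∃ k₀ : ℕ, k₀ ∉ E ∧ 1 ≤ k₀ ∧ (k₀ : ℝ) ≤ KZ t D₀ l ∧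
            Real.exp (γ * t) ≤ ((DQ t l k₀ D).card : ℝ))
    {P k : ℕ} (hl : 1 ≤ l) (hlL : (l : ℝ) ≤ Lam) (hP : 0 < P) (hPu : Real.log P ≤ 2 * u ^ j)
    (hk : 1 ≤ k) (hkt : (k.primeFactors.card : ℝ) ≤ Real.exp (u ^ (α - ε))) :
    ∃ k₀ : ℕ, 1 ≤ k₀ ∧ (k₀ : ℝ) ≤ KZ t D₀ l ∧
      Real.exp (γ * t) / 2 ≤ ((Qs t P l k₀ D).card : ℝ) ∧
      (Nat.gcd k k₀ : ℝ) ≤ (KZ t D₀ l) ^ (3 / 10 : ℝ) ∧ (KZ t D₀ l) ^ (9 / 10 : ℝ) ≤ k₀ := by
  classical
  obtain ⟨hK1, hK2, hK3⟩ := KZ_bounds hl hlL hD.1 hD.2.1 num.hd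
  set K := KZ t D₀ l with hK
  have ht1 := num.t4
  have ht0 : 0 < t := by linarith
  have hKpos : 0 < K := lt_of_lt_of_le (Real.exp_pos _) hK1
  set E1 := (Icc 1 ⌊K⌋₊).filter (fun k₀ => K ^ (3 / 10 : ℝ) < (Nat.gcd k k₀ : ℝ)) with hE1
  set E2 := Icc 1 ⌊K ^ (9 / 10 : ℝ)⌋₊ with hE2
  have c1 : (E1.card : ℝ) ≤ K / (256 * t) :=
    hT1 t K num.tT1 hK1 hK2 k hk (hkt.trans (Real.exp_le_exp.mpr num.hk))
  have c2 : (E2.card : ℝ) ≤ K / (512 * t) := by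
    have h1 : (E2.card : ℝ) ≤ K ^ (9 / 10 : ℝ) := by
      rw [hE2, Nat.card_Icc, Nat.add_sub_cancel]
      exact Nat.floor_le (Real.rpow_nonneg hKpos.le _)
    have h2 : 512 * t ≤ K ^ (1 / 10 : ℝ) := by
      refine num.he.trans ?_
      calc Real.exp (t / 20) = (Real.exp (t / 2)) ^ (1 / 10 : ℝ) := by
            rw [← Real.exp_mul]; congr 1; ring
        _ ≤ K ^ (1 / 10 : ℝ) := Real.rpow_le_rpow (Real.exp_pos _).le hK1 (by norm_num)
    refine h1.trans ?_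
    rw [le_div_iff₀ (by positivity)]
    calc K ^ (9 / 10 : ℝ) * (512 * t) ≤ K ^ (9 / 10 : ℝ) * K ^ (1 / 10 : ℝ) :=
          mul_le_mul_of_nonneg_left h2 (Real.rpow_nonneg hKpos.le _)
      _ = K := by rw [← Real.rpow_add hKpos]; norm_num
  have cE : (((E1 ∪ E2 : Finset ℕ)).card : ℝ) ≤ K / (64 * t) := by
    have h1 : ((E1 ∪ E2 : Finset ℕ)).card ≤ E1.card + E2.card := card_union_le _ _
    have h2 : (((E1 ∪ E2 : Finset ℕ)).card : ℝ) ≤ E1.card + E2.card := by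
      exact_mod_cast h1
    have h3 : K / (256 * t) + K / (512 * t) ≤ K / (64 * t) := by
      have : K / (256 * t) + K / (512 * t) = (3 / 8) * (K / (64 * t)) := by
        field_simp; ring
      rw [this]
      have : 0 ≤ K / (64 * t) := by positivity
      linarith
    linarith
  obtain ⟨k₀, hk0, hk1, hkK, hcard⟩ := hDE _ cE
  rw [mem_union, not_or] at hk0
  obtain ⟨n1, n2⟩ := hk0
  have hmem : k₀ ∈ Icc 1 ⌊K⌋₊ := by
    rw [mem_Icc]; exact ⟨hk1, Nat.le_floor hkK⟩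
  refine ⟨k₀, hk1, hkK, ?_, ?_, ?_⟩
  · have h1 := Qs_card (t := t) (b := P) (l := l) (k₀ := k₀) D hP hl hk1
    have h2 := num.hb
    linarith
  · by_contra h
    rw [not_le] at h
    exact n1 (mem_filter.mpr ⟨hmem, h⟩)
  · by_contra h
    rw [not_le] at h
    exact n2 (mem_Icc.mpr ⟨hk1, Nat.le_floor h.le⟩)

/-- the sieving primes are large compared with the common divisor of `q - 1` and `k` -/
lemma gcd_smallS {ε α C T1 T2 γ γ1 : ℝ} {j A : ℕ} {u t y Lam : ℝ}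
    (num : NumS ε α C T1 T2 γ γ1 j A u t y Lam)
    {b l k k₀ q : ℕ} {D : Finset ℕ} {D₀ : ℝ} (hD : GoodD t y D D₀) (hl : 1 ≤ l)
    (hlL : (l : ℝ) ≤ Lam)
    (hgcd : (Nat.gcd k k₀ : ℝ) ≤ (KZ t D₀ l) ^ (3 / 10 : ℝ)) (hk0 : (KZ t D₀ l) ^ (9 / 10 : ℝ) ≤ k₀)
    (hk01 : 1 ≤ k₀) (hq : q ∈ Qs t b l k₀ D) : 400 * (Nat.gcd k (q - 1)) ^ 2 ≤ q := by
  obtain ⟨hK1, hK2, hK3⟩ := KZ_bounds hl hlL hD.1 hD.2.1 num.hd
  set K := KZ t D₀ l with hK
  have hKpos : 0 < K := lt_of_lt_of_le (Real.exp_pos _) hK1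
  obtain ⟨hqp, _, _, d, hd, h4⟩ := mem_Qs hq
  obtain ⟨d1, d2, _⟩ := hD.2.2 d hd
  have hD1 := hD.1
  have hlr : (1 : ℝ) ≤ l := by exact_mod_cast hl
  have hd0 : 0 < d := by
    have : (0 : ℝ) < d := by linarith
    exact_mod_cast this
  have hq1 : q - 1 = (2 * l * d) * k₀ := by rw [h4]; omega
  have g1 : Nat.gcd k (q - 1) ≤ (2 * l * d) * Nat.gcd k k₀ := by
    rw [hq1]
    have hX : 0 < 2 * l * d := by positivity
    calc Nat.gcd k ((2 * l * d) * k₀)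
        ≤ Nat.gcd k (2 * l * d) * Nat.gcd k k₀ :=
          Nat.le_of_dvd (Nat.mul_pos (Nat.gcd_pos_of_pos_right _ hX) (Nat.gcd_pos_of_pos_right _ hk01))
            (Nat.gcd_mul_right_dvd_mul_gcd _ _ _)
      _ ≤ _ := Nat.mul_le_mul_right _ (Nat.le_of_dvd hX (Nat.gcd_dvd_right _ _))
  have g2 : (Nat.gcd k (q - 1) : ℝ) ≤ 4 * l * D₀ * K ^ (3 / 10 : ℝ) := by
    have h5 : (Nat.gcd k (q - 1) : ℝ) ≤ (2 * l * d) * Nat.gcd k k₀ := by exact_mod_cast g1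
    refine h5.trans ?_
    apply mul_le_mul _ hgcd (by positivity) (by positivity)
    calc (2 : ℝ) * l * d ≤ 2 * l * (2 * D₀) := by gcongr
      _ = _ := by ring
  have g3 : 2 * l * D₀ * K ^ (9 / 10 : ℝ) ≤ q := by
    have h5 : (q : ℝ) = 1 + 2 * l * d * k₀ := by rw [h4]; push_cast; ring
    rw [h5]
    have h6 : 2 * l * D₀ * K ^ (9 / 10 : ℝ) ≤ 2 * l * d * k₀ := by
      have h8 : 0 ≤ K ^ (9 / 10 : ℝ) := Real.rpow_nonneg hKpos.le _
      gcongr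
    linarith
  have hK3' : 3200 * (l * D₀) ≤ K ^ (3 / 10 : ℝ) := by
    have h1 : 3200 * (l * D₀) ≤ (3200 * Lam) * Real.exp (t / 40) := by
      have : (l : ℝ) * D₀ ≤ Lam * Real.exp (t / 40) :=
        mul_le_mul hlL hD.2.1 (by linarith) (by linarith)
      linarith
    refine h1.trans ?_
    calc (3200 * Lam) * Real.exp (t / 40) ≤ Real.exp (t / 8) * Real.exp (t / 40) :=
          mul_le_mul_of_nonneg_right num.hg (Real.exp_pos _).le
      _ = (Real.exp (t / 2)) ^ (3 / 10 : ℝ) := by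
          rw [← Real.exp_mul, ← Real.exp_add]; congr 1; ring
      _ ≤ K ^ (3 / 10 : ℝ) := Real.rpow_le_rpow (Real.exp_pos _).le hK1 (by norm_num)
  have hfin : (400 : ℝ) * (Nat.gcd k (q - 1) : ℝ) ^ 2 ≤ q := by
    have e0 : 0 ≤ K ^ (3 / 10 : ℝ) := Real.rpow_nonneg hKpos.le _
    have e1 : (K ^ (3 / 10 : ℝ)) ^ 2 * K ^ (3 / 10 : ℝ) = K ^ (9 / 10 : ℝ) := by
      rw [← Real.rpow_natCast, ← Real.rpow_mul hKpos.le, ← Real.rpow_add hKpos]
      norm_num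
    calc (400 : ℝ) * (Nat.gcd k (q - 1) : ℝ) ^ 2 ≤ 400 * (4 * l * D₀ * K ^ (3 / 10 : ℝ)) ^ 2 := by
          gcongr
      _ = (2 * l * D₀) * ((3200 * (l * D₀)) * (K ^ (3 / 10 : ℝ)) ^ 2) := by ring
      _ ≤ (2 * l * D₀) * (K ^ (3 / 10 : ℝ) * (K ^ (3 / 10 : ℝ)) ^ 2) := by
          apply mul_le_mul_of_nonneg_left _ (by positivity)
          apply mul_le_mul_of_nonneg_right hK3' (by positivity)
      _ = 2 * l * D₀ * K ^ (9 / 10 : ℝ) := by rw [← e1]; ring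
      _ ≤ q := g3
  exact_mod_cast hfin

/-- one set of the union bound, progression `g x + r` -/
lemma one_setS (hL : MP_2738db_nt_U.Stmt_Loc) (hM : Stmt_Mom) {N l κ z r g h : ℕ} (hlp : l.Prime)
    (hκ : 1 ≤ κ)
    (Q : Finset ℕ) (hQ : ∀ q ∈ Q, q.Prime) (hQz : ∀ q ∈ Q, q ≤ z) (hQl : ∀ q ∈ Q, l ∣ q - 1)
    (hQg : ∀ q ∈ Q, 400 * (Nat.gcd κ (q - 1)) ^ 2 ≤ q) (hQne : Q.Nonempty) (hr : 1 ≤ r)
    (hg : ∀ q ∈ Q, ¬ q ∣ g)
    (β ρ : ℤ) (hβ : ∀ q ∈ Q, (β : ZMod q) ≠ 0) (hρ : ∀ q ∈ Q, (ρ : ZMod q) ≠ 0) :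
    (({x : ℕ | 1 ≤ x ∧ x ≤ N ∧ ∀ q ∈ Q, ∃ s : ZMod q,
      ((g * x + h : ℕ) : ZMod q) ^ κ + (β : ZMod q) = (ρ : ZMod q) * s ^ l}.ncard : ℕ) : ℝ)
      ≤ N * (36 * (r : ℝ) ^ 2 / Q.card) ^ r + (36 * (z : ℝ) ^ 2) ^ r := by
  have h1 := hM Q z N r (fun q hq => ⟨hQ q hq, hQz q hq⟩) hQne hr (fun q x => ∃ s : ZMod q,
      ((g * x + h : ℕ) : ZMod q) ^ κ + (β : ZMod q) = (ρ : ZMod q) * s ^ l) (by
    intro q _ c c' hcc hs
    push_cast at hs ⊢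
    rw [← hcc]; exact hs) (by
    intro q hq
    haveI : Fact q.Prime := ⟨hQ q hq⟩
    have h2 := hL q l κ (hQ q hq) hlp (hQl q hq) hκ (hQg q hq) (β : ZMod q) (ρ : ZMod q) (hβ q hq) (hρ q hq)
    have hg0 : (g : ZMod q) ≠ 0 := by
      rw [Ne, ZMod.natCast_eq_zero_iff]
      exact hg q hq
    refine le_trans (Nat.mul_le_mul_left 6 ?_) h2
    apply Nat.card_le_card_of_injective
      (fun x : {x : Fin q // ∃ s : ZMod q, ((g * ((x : Fin q) : ℕ) + h : ℕ) : ZMod q) ^ κ + (β : ZMod q) = (ρ : ZMod q) * s ^ l} =>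
        (⟨((g * ((x : Fin q) : ℕ) + h : ℕ) : ZMod q), x.2⟩ : {x : ZMod q // ∃ s : ZMod q, x ^ κ + (β : ZMod q) = (ρ : ZMod q) * s ^ l}))
    intro x x' hxx
    have h3 : ((g * ((x : Fin q) : ℕ) + h : ℕ) : ZMod q) = ((g * ((x' : Fin q) : ℕ) + h : ℕ) : ZMod q) :=
      congrArg Subtype.val hxx
    push_cast at h3
    have h3' : (((x : Fin q) : ℕ) : ZMod q) = (((x' : Fin q) : ℕ) : ZMod q) :=
      mul_left_cancel₀ hg0 (add_right_cancel h3)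
    have h4 := (ZMod.natCast_eq_natCast_iff' _ _ _).mp h3'
    rw [Nat.mod_eq_of_lt x.1.2, Nat.mod_eq_of_lt x'.1.2] at h4
    exact Subtype.ext (Fin.ext h4))
  exact h1

/-- the representatives of the elements of the semigroup -/
noncomputable def BB (S : Finset ℕ) (L : ℕ) : Finset ℕ :=
  (Fintype.piFinset (fun _ : S => range L)).image (fun ν => ∏ b : S, (b : ℕ) ^ (ν b))

lemma BB_card (S : Finset ℕ) (L : ℕ) : (BB S L).card ≤ L ^ S.card := by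
  unfold BB
  refine card_image_le.trans ?_
  rw [Fintype.card_piFinset]
  simp

/-- elements of the semigroup as products -/
lemma closure_prod {S : Finset ℕ} {B : ℕ} (hB : B ∈ Submonoid.closure (S : Set ℕ)) :
    ∃ n : ℕ → ℕ, B = ∏ b ∈ S, b ^ n b := by
  induction hB using Submonoid.closure_induction with
  | mem x hx =>
    refine ⟨fun b => if b = x then 1 else 0, ?_⟩
    rw [Finset.prod_eq_single x]
    · simp
    · intro b _ hb
      simp [hb]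
    · intro h
      exact absurd hx h
  | one => exact ⟨fun _ => 0, by simp⟩
  | mul x y _ _ hx hy =>
    obtain ⟨n, hn⟩ := hx
    obtain ⟨n', hn'⟩ := hy
    refine ⟨fun b => n b + n' b, ?_⟩
    rw [hn, hn', ← Finset.prod_mul_distrib]
    apply Finset.prod_congr rfl
    intro b _
    rw [pow_add]

lemma closure_red {S : Finset ℕ} {B : ℕ} (hB : B ∈ Submonoid.closure (S : Set ℕ)) {L L' : ℕ}
    (hL : 0 < L) (hLL : L ≤ L') :
    ∃ B' ∈ BB S L', ∀ q : ℕ, q.Prime → q - 1 ∣ L → (∀ b ∈ S, ¬ q ∣ b) →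
      (B : ZMod q) = (B' : ZMod q) ∧ ¬ q ∣ B' := by
  obtain ⟨n, hn⟩ := closure_prod hB
  refine ⟨∏ b : S, (b : ℕ) ^ (n b % L), ?_, ?_⟩
  · unfold BB
    rw [mem_image]
    refine ⟨fun b => n b % L, ?_, rfl⟩
    rw [Fintype.mem_piFinset]
    intro b
    rw [mem_range]
    exact (Nat.mod_lt _ hL).trans_le hLL
  · intro q hq hdvd hqS
    haveI : Fact q.Prime := ⟨hq⟩
    have hprod : ∏ b : S, (b : ℕ) ^ (n b % L) = ∏ b ∈ S, b ^ (n b % L) :=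
      Finset.prod_coe_sort S (fun b => b ^ (n b % L))
    rw [hprod, hn]
    constructor
    · push_cast
      apply Finset.prod_congr rfl
      intro b hb
      have hb0 : (b : ZMod q) ≠ 0 := by
        rw [Ne, ZMod.natCast_eq_zero_iff]
        exact hqS b hb
      obtain ⟨d, hd⟩ := hdvd
      have h2 : (b : ZMod q) ^ L = 1 := by
        rw [hd, pow_mul, ZMod.pow_card_sub_one_eq_one hb0, one_pow]
      conv_lhs => rw [← Nat.mod_add_div (n b) L, pow_add, pow_mul, h2, one_pow, mul_one]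
    · intro h
      obtain ⟨b, hb, hqb⟩ := (hq.prime.dvd_finsetProd_iff _).1 h
      exact hqS b hb (hq.dvd_of_dvd_pow hqb)

/-- a small prime with a large valuation -/
lemma exists_val {S : Finset ℕ} {B : ℕ} (hB : B ∈ Submonoid.closure (S : Set ℕ)) {w V : ℝ}
    (hw : 2 ≤ w) (hV : 0 ≤ V)
    (hS : ∀ b ∈ S, 2 ≤ b ∧ Real.log b ≤ V) (hp : ∀ b ∈ S, ∃ p : ℕ, p.Prime ∧ p ∣ b ∧ (p : ℝ) ≤ w) :
    ∃ p : ℕ, p.Prime ∧ (p : ℝ) ≤ w ∧ Real.log B ≤ (padicValNat p B : ℝ) * (S.card * V) := by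
  obtain ⟨n, hn⟩ := closure_prod hB
  rcases S.eq_empty_or_nonempty with hE | hne
  · refine ⟨2, Nat.prime_two, by exact_mod_cast hw, ?_⟩
    rw [hn, hE]
    simp
  · obtain ⟨b₀, hb₀, hmax⟩ := Finset.exists_max_image S n hne
    obtain ⟨p, hpp, hpb, hpw⟩ := hp b₀ hb₀
    refine ⟨p, hpp, hpw, ?_⟩
    haveI : Fact p.Prime := ⟨hpp⟩
    have hpos : ∀ b ∈ S, 0 < b ^ n b := by
      intro b hb
      have := (hS b hb).1
      positivity
    have hB0 : B ≠ 0 := by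
      rw [hn]
      exact (Finset.prod_pos hpos).ne'
    have h1 : n b₀ ≤ padicValNat p B := by
      rw [← padicValNat_dvd_iff_le hB0]
      calc p ^ n b₀ ∣ b₀ ^ n b₀ := pow_dvd_pow_of_dvd hpb _
        _ ∣ B := by rw [hn]; exact Finset.dvd_prod_of_mem _ hb₀
    have h2 : Real.log B = ∑ b ∈ S, n b * Real.log b := by
      rw [hn]
      push_cast
      rw [Real.log_prod]
      · apply Finset.sum_congr rfl
        intro b _
        rw [Real.log_pow]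
      · intro b hb
        have := (hS b hb).1
        positivity
    rw [h2]
    calc ∑ b ∈ S, (n b : ℝ) * Real.log b ≤ ∑ _b ∈ S, (padicValNat p B : ℝ) * V := by
          apply Finset.sum_le_sum
          intro b hb
          have h3 : (n b : ℝ) ≤ padicValNat p B := by exact_mod_cast (hmax b hb).trans h1
          apply mul_le_mul h3 (hS b hb).2 _ (by positivity)
          exact Real.log_nonneg (by exact_mod_cast (by have := (hS b hb).1; omega))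
      _ = _ := by rw [Finset.sum_const, nsmul_eq_mul]; ring

end Pool.Agent.Work.MP_2738db_nt_Z.helper40
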