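import Pool.Agent.Work.MP_2738db_nt_Z_helper40.FIN
import Pool.Agent.Work.MP_2738db_nt_U_helper40.Main

set_option autoImplicit false

namespace Pool.Agent.Work.MP_2738db_nt_Z.helper40

open Finset Filter
open Pool.Agent.Work.MP_2738db_nt_U (PY LM)
open Pool.Agent.Work.MP_2738db_nt_U.helper40 (pow_red gcd_red prod_PY_le mem_PY omega_le sβ sρ)

/-- one set of the union bound -/
noncomputable def FS (N b : ℕ) (t : ℝ) (DD : ℕ → Finset ℕ) (θ : ℕ × ℕ × ℕ × ℕ × ℕ) :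
    Finset ℕ := by
  classical
  exact (Icc 1 N).filter (fun c => ∀ q ∈ Qs t b θ.1 θ.2.1 (DD θ.1), ∃ s : ZMod q,
    (c : ZMod q) ^ θ.2.2.1 + ((sβ θ.2.2.2.2 * (b : ℤ) ^ θ.2.2.2.1 : ℤ) : ZMod q)
      = ((sρ θ.2.2.2.2 : ℤ) : ZMod q) * s ^ θ.1)

/-- the good parameters -/
def Good (b : ℕ) (t γ : ℝ) (DD : ℕ → Finset ℕ) (θ : ℕ × ℕ × ℕ × ℕ × ℕ) : Prop :=
  θ.1.Prime ∧ 1 ≤ θ.2.2.1 ∧ Real.exp (γ * t) / 2 ≤ ((Qs t b θ.1 θ.2.1 (DD θ.1)).card : ℝ) ∧
    (∀ q ∈ Qs t b θ.1 θ.2.1 (DD θ.1), 400 * (Nat.gcd θ.2.2.1 (q - 1)) ^ 2 ≤ q)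

lemma FS_card (hL : MP_2738db_nt_U.Stmt_Loc) (hM : Stmt_Mom)
    {ε C T1 T2 γ γ1 : ℝ} {j A : ℕ} {u t y Lam : ℝ}
    (num : NumZ ε C T1 T2 γ γ1 j A u t y Lam) (hγ : 0 < γ) (hγ1 : 0 < γ1) (hg1 : γ1 ≤ γ / 32)
    (hg2 : γ1 ≤ 1 / 2) {N b : ℕ} (hN : (N : ℝ) = Real.exp u)
    (DD : ℕ → Finset ℕ) (θ : ℕ × ℕ × ℕ × ℕ × ℕ) (hθ : Good b t γ DD θ) :
    ((FS N b t DD θ).card : ℝ) ≤ 2 * Real.exp ((1 - γ1) * u) := by
  classical
  obtain ⟨hlp, hκ, hcard, hg⟩ := hθ
  set Q := Qs t b θ.1 θ.2.1 (DD θ.1) with hQ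
  have hQp : ∀ q ∈ Q, q.Prime := fun q hq => (mem_Qs hq).1
  have hq2 : ∀ q ∈ Q, 400 ≤ q := by
    intro q hq
    have h1 := hg q hq
    have h2 : 1 ≤ (Nat.gcd θ.2.2.1 (q - 1)) ^ 2 :=
      Nat.one_le_pow _ _ (Nat.gcd_pos_of_pos_left _ hκ)
    omega
  have hQne : Q.Nonempty := by
    rw [← Finset.card_pos]
    have : (0 : ℝ) < (Q.card : ℝ) := lt_of_lt_of_le (by positivity) hcard
    exact_mod_cast this
  obtain ⟨hr1, hsz⟩ := set_num num hγ hγ1 hg1 hg2 hcard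
    (z := ⌊Real.exp t⌋₊) (Nat.floor_le (Real.exp_pos t).le)
  have h1 := one_set hL hM (N := N) (l := θ.1) (κ := θ.2.2.1) (z := ⌊Real.exp t⌋₊)
    (r := ⌊u / (8 * t)⌋₊) hlp hκ Q hQp
    (fun q hq => Nat.le_floor (mem_Qs hq).2.1)
    (by
      intro q hq
      obtain ⟨_, _, _, d, _, h4⟩ := mem_Qs hq
      refine ⟨2 * d * θ.2.1, ?_⟩
      have : q - 1 = 2 * θ.1 * d * θ.2.1 := by omega
      rw [this]; ring)
    hg hQne hr1
    (sβ θ.2.2.2.2 * (b : ℤ) ^ θ.2.2.2.1) (sρ θ.2.2.2.2)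
    (by
      intro q hq h
      haveI : Fact q.Prime := ⟨hQp q hq⟩
      rw [ZMod.intCast_zmod_eq_zero_iff_dvd] at h
      have h3 : (q : ℤ) ∣ (b : ℤ) ^ θ.2.2.2.1 := by
        unfold sβ at h
        split_ifs at h
        · simpa using h
        · simpa using h
      have h4 := Int.Prime.dvd_pow' (hQp q hq) h3
      exact (mem_Qs hq).2.2.1 (by exact_mod_cast h4))
    (by
      intro q hq h
      haveI : Fact q.Prime := ⟨hQp q hq⟩
      rw [ZMod.intCast_zmod_eq_zero_iff_dvd] at h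
      have h5 := hq2 q hq
      have h3 : (q : ℤ) ∣ 1 := by
        unfold sρ at h
        split_ifs at h
        · simpa using h
        · exact h
      have := Int.le_of_dvd (by norm_num) h3
      omega)
  have h2 : {c : ℕ | 1 ≤ c ∧ c ≤ N ∧ ∀ q ∈ Q, ∃ s : ZMod q,
      (c : ZMod q) ^ θ.2.2.1 + ((sβ θ.2.2.2.2 * (b : ℤ) ^ θ.2.2.2.1 : ℤ) : ZMod q)
        = ((sρ θ.2.2.2.2 : ℤ) : ZMod q) * s ^ θ.1} = ↑(FS N b t DD θ) := by
    ext c
    unfold FS
    simp only [Set.mem_setOf_eq, coe_filter, mem_Icc, and_assoc, ← hQ]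
  rw [h2, Set.ncard_coe_finset] at h1
  refine h1.trans ?_
  rw [hN]
  exact hsz

/-- the final numerical inequality -/
lemma count_num {ε C T1 T2 γ γ1 : ℝ} {j A : ℕ} {u t y Lam : ℝ}
    (num : NumZ ε C T1 T2 γ γ1 j A u t y Lam) (hγ1 : 0 < γ1) (hg2 : γ1 ≤ 1 / 2)
    (hLam : Lam = u ^ (4 * j + 1)) :
    1 + (Lam * (Real.exp t * (Real.exp (t + 2 * y * Real.log 4) * (Real.exp (t + 2 * y * Real.log 4) * 3)))) *
      (2 * Real.exp ((1 - γ1) * u)) ≤ Real.exp ((1 - γ1 / 2) * u) := by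
  have hu0 : 0 < u := by linarith [num.u1]
  have ht0 : 0 < t := by linarith [num.t4]
  have hy0 : 0 < y := by linarith [num.y3]
  have hLexp : Lam = Real.exp ((4 * j + 1) * Real.log u) := by
    rw [hLam]
    have : ((4 * j + 1 : ℕ) : ℝ) = 4 * (j : ℝ) + 1 := by push_cast; ring
    rw [← this, Real.exp_nat_mul, Real.exp_log hu0]
  have hlog4 : Real.log 4 ≤ 14 / 10 := by
    have : Real.log 4 = 2 * Real.log 2 := by
      rw [show (4 : ℝ) = 2 ^ 2 by norm_num, Real.log_pow]; norm_num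
    have := Real.log_two_lt_d9
    linarith
  have hlu : 0 ≤ Real.log u := Real.log_nonneg (by linarith [num.u1])
  have hj0 : (0 : ℝ) ≤ j := Nat.cast_nonneg j
  have h7 : (7 : ℝ) ≤ Real.exp 2 := by
    have h3 : Real.exp 2 = Real.exp 1 * Real.exp 1 := by
      rw [← Real.exp_add]; norm_num
    have h4 : (2.7 : ℝ) < Real.exp 1 := by have := Real.exp_one_gt_d9; linarith
    nlinarith
  set M := Lam * (Real.exp t * (Real.exp (t + 2 * y * Real.log 4) * Real.exp (t + 2 * y * Real.log 4)))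
    with hM
  have hM1 : M = Real.exp ((4 * j + 1) * Real.log u + (t + ((t + 2 * y * Real.log 4) + (t + 2 * y * Real.log 4)))) := by
    rw [hM, hLexp, ← Real.exp_add, ← Real.exp_add, ← Real.exp_add]
  have hMge : 1 ≤ M := by
    rw [hM1]
    apply Real.one_le_exp
    have h1 : 0 ≤ 2 * y * Real.log 4 := mul_nonneg (by linarith) (Real.log_nonneg (by norm_num))
    have h2 : 0 ≤ (4 * (j : ℝ) + 1) * Real.log u := mul_nonneg (by linarith) hlu
    linarith
  have hEge : 1 ≤ Real.exp ((1 - γ1) * u) := by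
    apply Real.one_le_exp
    apply mul_nonneg (by linarith) hu0.le
  have hMle : M ≤ Real.exp ((4 * j + 1) * Real.log u + (3 * t + 6 * y)) := by
    rw [hM1]
    apply Real.exp_le_exp.mpr
    have h1 : 2 * y * Real.log 4 ≤ 2 * y * (14 / 10) :=
      mul_le_mul_of_nonneg_left hlog4 (by linarith)
    linarith
  calc 1 + (Lam * (Real.exp t * (Real.exp (t + 2 * y * Real.log 4) * (Real.exp (t + 2 * y * Real.log 4) * 3)))) *
      (2 * Real.exp ((1 - γ1) * u)) = 1 + 6 * (M * Real.exp ((1 - γ1) * u)) := by rw [hM]; ring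
    _ ≤ 7 * (M * Real.exp ((1 - γ1) * u)) := by
        have : 1 ≤ M * Real.exp ((1 - γ1) * u) := by nlinarith
        linarith
    _ ≤ Real.exp 2 * (Real.exp ((4 * j + 1) * Real.log u + (3 * t + 6 * y)) * Real.exp ((1 - γ1) * u)) := by
        apply mul_le_mul h7 _ (by positivity) (Real.exp_pos _).le
        exact mul_le_mul_of_nonneg_right hMle (Real.exp_pos _).le
    _ = Real.exp ((2 + ((4 * j + 1) * Real.log u + (3 * t + 6 * y))) + (1 - γ1) * u) := by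
        rw [← Real.exp_add, ← Real.exp_add]; congr 1; ring
    _ ≤ Real.exp ((1 - γ1 / 2) * u) := by
        apply Real.exp_le_exp.mpr
        have h1 := num.hS
        have h2 : 0 ≤ γ1 / 4 * u := by positivity
        have h3 : (1 - γ1 / 2) * u = (γ1 / 4 * u + (1 - γ1) * u) + γ1 / 4 * u := by ring
        rw [h3]
        have h4 := add_le_add_left h1 ((1 - γ1) * u)
        linarith

theorem stmt_Z (hL : MP_2738db_nt_U.Stmt_Loc) (hSm : Stmt_Smz) (hD : Stmt_Dpr) (hM : Stmt_Mom)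
    (hSt : MP_2738db_nt_U.Stmt_Step) : Stmt_Z := by
  classical
  intro ε hε0 hε1
  obtain ⟨C, hC1, hst⟩ := hSt
  obtain ⟨T1, hT1⟩ := hSm (ε / 2) (by linarith) (by linarith)
  obtain ⟨γ, hγ, hDp⟩ := hD (ε / 4) (by linarith) (by linarith)
  set j : ℕ := ⌈1 / ε⌉₊ with hj
  have hj1 : 1 / ε ≤ j := Nat.le_ceil _
  set A : ℕ := 8 * j + 4 with hA
  obtain ⟨T2, hT2⟩ := hDp A
  set γ1 : ℝ := min (γ / 32) (1 / 2) with hγ1d
  have hg1 : γ1 ≤ γ / 32 := min_le_left _ _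
  have hg2 : γ1 ≤ 1 / 2 := min_le_right _ _
  have hγ1 : 0 < γ1 := lt_min (by positivity) (by norm_num)
  obtain ⟨u0, hu0⟩ := numericZ ε C T1 T2 γ γ1 hε0 hε1 hγ hγ1 j A (le_refl _)
  refine ⟨γ1 / 2, by positivity, ⌈Real.exp u0⌉₊ + 1, ?_⟩
  intro N hN b hb hbN
  have hN0 : 0 < N := by omega
  have hNr : (0 : ℝ) < N := by exact_mod_cast hN0
  set u := Real.log N with hu
  have huu : u0 ≤ u := by
    rw [hu, Real.le_log_iff_exp_le hNr]
    have h1 : ((⌈Real.exp u0⌉₊ + 1 : ℕ) : ℝ) ≤ N := by exact_mod_cast hN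
    push_cast at h1
    have := Nat.le_ceil (Real.exp u0)
    linarith
  have num := hu0 u huu
  set t := u ^ (1 - ε / 2) with ht
  set y := u ^ (1 - ε / 4) with hy
  set Lam := u ^ (4 * j + 1) with hLam
  have hu3 := num.u1
  have hu0' : 0 < u := by linarith
  have hu1 : 1 ≤ u := by linarith
  have hy3 := num.y3
  have ht4 := num.t4
  have hNe : (N : ℝ) = Real.exp u := by rw [hu, Real.exp_log hNr]
  have hwj : u ^ (1 / ε) ≤ u ^ j := by
    rw [← Real.rpow_natCast]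
    exact Real.rpow_le_rpow_of_exponent_le hu1 hj1
  have hwu : u ≤ u ^ (1 / ε) := by
    have h1 : u ^ (1 : ℝ) ≤ u ^ (1 / ε) := by
      apply Real.rpow_le_rpow_of_exponent_le hu1
      rw [le_div_iff₀ hε0]; linarith
    rwa [Real.rpow_one] at h1
  -- the sets `D`
  have hDex : ∀ l : ℕ, ∃ (D : Finset ℕ) (D₀ : ℝ), l.Prime → (l : ℝ) ≤ Lam →
      (GoodD t y D D₀ ∧ ∀ E : Finset ℕ, (E.card : ℝ) ≤ KZ t D₀ l / (64 * t) →
          ∃ k₀ : ℕ, k₀ ∉ E ∧ 1 ≤ k₀ ∧ (k₀ : ℝ) ≤ KZ t D₀ l ∧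
            Real.exp (γ * t) ≤ ((DQ t l k₀ D).card : ℝ)) := by
    intro l
    by_cases h : l.Prime ∧ (l : ℝ) ≤ Lam
    · obtain ⟨D, D₀, h1, h2, h3, h4⟩ := hT2 t y num.tT2 num.ty num.yA l h.1 (h.2.trans num.LA)
      exact ⟨D, D₀, fun _ _ => ⟨⟨h1, h2, h3⟩, h4⟩⟩
    · exact ⟨∅, 0, fun h1 h2 => absurd ⟨h1, h2⟩ h⟩
  choose DD D0 hDD using hDex
  set X := Real.exp (t + 2 * y * Real.log 4) with hX
  set Θ : Finset (ℕ × ℕ × ℕ × ℕ × ℕ) :=
    Icc 1 ⌊Lam⌋₊ ×ˢ (Icc 1 ⌊Real.exp t⌋₊ ×ˢ (Icc 1 ⌊X⌋₊ ×ˢ (Icc 1 ⌊X⌋₊ ×ˢ range 3))) with hΘ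
  have hLam0 : 0 ≤ Lam := by rw [hLam]; positivity
  have hΘc : (Θ.card : ℝ) ≤ Lam * (Real.exp t * (X * (X * 3))) := by
    rw [hΘ, card_product, card_product, card_product, card_product, Nat.card_Icc, Nat.card_Icc,
      Nat.card_Icc, card_range]
    simp only [Nat.add_sub_cancel]
    push_cast
    have a1 := Nat.floor_le hLam0
    have a2 := Nat.floor_le (Real.exp_pos t).le
    have a3 := Nat.floor_le (show 0 ≤ X from (Real.exp_pos _).le)
    gcongr
  -- the inclusion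
  have hincl : MP_2738db_nt_U.Exc N b (u ^ (1 / ε)) (Real.exp (u ^ (1 - ε)))
      ⊆ ↑(({1} : Finset ℕ) ∪ (Θ.filter (Good b t γ DD)).biUnion (FS N b t DD)) := by
    intro c hc
    obtain ⟨hc1, hcN, hbc, ⟨p, hp, hpd, hpw⟩, a, m, n, k, ha, hm, hn, hk, hkV, heq⟩ := hc
    rw [coe_union, coe_singleton]
    by_cases hc2 : c = 1
    · left; exact hc2
    right
    have hc2' : 2 ≤ c := by omega
    rw [mem_coe, mem_biUnion]
    -- the prime exponent
    have hls : ∃ l s : ℕ, l.Prime ∧ (l : ℝ) ≤ Lam ∧ a ^ m = s ^ l := by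
      by_cases ha1 : a = 1
      · refine ⟨2, 1, Nat.prime_two, ?_, by rw [ha1]; simp⟩
        have h1 : u ^ (1 : ℕ) ≤ u ^ (4 * j + 1 : ℕ) := pow_le_pow_right₀ hu1 (by omega)
        rw [pow_one] at h1
        push_cast; linarith
      · have hl := Nat.minFac_prime (show m ≠ 1 by omega)
        obtain ⟨m', hm'⟩ := Nat.minFac_dvd m
        set l := m.minFac with hldef
        have ham : a ^ m = (a ^ m') ^ l := by
          conv_lhs => rw [hm', mul_comm, pow_mul]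
        by_cases hlL : (l : ℝ) ≤ Lam
        · exact ⟨l, a ^ m', hl, hlL, ham⟩
        · exfalso
          rw [not_le] at hlL
          have hm0 : m' ≠ 0 := by
            rintro rfl
            rw [mul_zero] at hm'; omega
          have ha2 : 2 ≤ a ^ m' := by
            calc 2 ≤ a := by omega
              _ = a ^ 1 := (pow_one a).symm
              _ ≤ a ^ m' := Nat.pow_le_pow_right (by omega) (by omega)
          have hthr := num.hi l hlL
          have hw2 : C * (u ^ (1 / ε)) ^ 2 * (u ^ (1 / ε)) ^ 2 * (1 + Real.log l) ^ 2 < l := by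
            refine lt_of_le_of_lt ?_ hthr
            have h1 : (u ^ (1 / ε)) ^ 2 * (u ^ (1 / ε)) ^ 2 ≤ u ^ (4 * j) := by
              have h0 : 0 ≤ u ^ (1 / ε) := by linarith
              calc (u ^ (1 / ε)) ^ 2 * (u ^ (1 / ε)) ^ 2 ≤ (u ^ j) ^ 2 * (u ^ j) ^ 2 := by gcongr
                _ = u ^ (4 * j) := by rw [← pow_mul, ← pow_add]; congr 1; ring
            calc C * (u ^ (1 / ε)) ^ 2 * (u ^ (1 / ε)) ^ 2 * (1 + Real.log l) ^ 2
                = C * ((u ^ (1 / ε)) ^ 2 * (u ^ (1 / ε)) ^ 2) * (1 + Real.log l) ^ 2 := by ring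
              _ ≤ C * u ^ (4 * j) * (1 + Real.log l) ^ 2 := by
                  apply mul_le_mul_of_nonneg_right _ (by positivity)
                  apply mul_le_mul_of_nonneg_left h1 (by linarith)
          have hlogc : Real.log c ≤ u ^ (1 / ε) := by
            refine le_trans ?_ hwu
            rw [hu]
            apply Real.log_le_log
            · exact_mod_cast (by omega : 0 < c)
            · exact_mod_cast hcN
          have h := hst (a ^ m') b c n k l p (u ^ (1 / ε)) (u ^ (1 / ε)) ha2 hb hc2' hbc hn hk hl hp hpd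
            (by linarith) hpw (by linarith) hbN hlogc hw2
          rw [ham] at heq
          rcases heq with h1 | h1 | h1
          · exact h.1 h1
          · exact h.2.1 h1
          · exact h.2.2 h1
    obtain ⟨l, s, hlp, hlL, has⟩ := hls
    have hl1 : 1 ≤ l := hlp.one_lt.le
    rw [has] at heq
    obtain ⟨hGD, hDE⟩ := hDD l hlp hlL
    obtain ⟨k₀, hk01, hkK, hcard, hgcd, hk09⟩ := good_k0 num
      (fun t K h1 h2 h3 k h4 h5 => hT1 t K h1 h2 h3 k h4 h5) hGD hDE hl1 hlL hb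
      (hbN.trans hwj) hk hkV
    obtain ⟨hK1, hK2, hK3⟩ := KZ_bounds hl1 hlL hGD.1 hGD.2.1 num.hd
    have hy0 : 0 ≤ y := by linarith
    have hprodpos : 0 < ∏ r ∈ PY y, r :=
      Finset.prod_pos fun r hr => (mem_PY hy0 hr).1.pos
    have hLM0 : 0 < LM y l k₀ := by
      unfold LM
      have : 0 < l := hl1
      have : 0 < k₀ := hk01
      positivity
    have hLMX : (LM y l k₀ : ℝ) ≤ X := by
      unfold LM
      push_cast
      have h1 := prod_PY_le hy0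
      push_cast at h1
      have h2 : (2 : ℝ) * l * k₀ ≤ Real.exp t := by
        refine le_trans ?_ hK3
        apply mul_le_mul_of_nonneg_left hkK (by positivity)
      rw [hX, Real.exp_add]
      apply mul_le_mul h2 h1 (by positivity) (Real.exp_pos _).le
    set κ := (k - 1) % LM y l k₀ + 1 with hκ
    set ν := (n - 1) % LM y l k₀ + 1 with hν
    have hκL : κ ≤ LM y l k₀ := by
      have := Nat.mod_lt (k - 1) hLM0
      omega
    have hνL : ν ≤ LM y l k₀ := by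
      have := Nat.mod_lt (n - 1) hLM0
      omega
    have hκX : κ ≤ ⌊X⌋₊ := Nat.le_floor ((Nat.cast_le.mpr hκL).trans hLMX)
    have hνX : ν ≤ ⌊X⌋₊ := Nat.le_floor ((Nat.cast_le.mpr hνL).trans hLMX)
    -- the sign
    have key : ∃ σ < 3, ∀ q ∈ Qs t b l k₀ (DD l), ∃ s : ZMod q,
        (c : ZMod q) ^ κ + ((sβ σ * (b : ℤ) ^ ν : ℤ) : ZMod q) = ((sρ σ : ℤ) : ZMod q) * s ^ l := by
      rcases heq with h1 | h1 | h1
      · refine ⟨0, by norm_num, fun q hq => ⟨(s : ZMod q), ?_⟩⟩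
        have h2 := congrArg (fun z : ℕ => (z : ZMod q)) h1
        push_cast at h2
        rw [pow_red (mem_Qs hq).1 hLM0 (Qs_dvd hGD hq) hk, pow_red (mem_Qs hq).1 hLM0 (Qs_dvd hGD hq) hn] at h2
        rw [← hκ, ← hν] at h2
        rw [show sβ 0 = -1 from rfl, show sρ 0 = 1 from rfl]
        push_cast
        rw [← h2]; ring
      · refine ⟨1, by norm_num, fun q hq => ⟨(s : ZMod q), ?_⟩⟩
        have h2 := congrArg (fun z : ℕ => (z : ZMod q)) h1
        push_cast at h2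
        rw [pow_red (mem_Qs hq).1 hLM0 (Qs_dvd hGD hq) hk, pow_red (mem_Qs hq).1 hLM0 (Qs_dvd hGD hq) hn] at h2
        rw [← hκ, ← hν] at h2
        rw [show sβ 1 = 1 from rfl, show sρ 1 = 1 from rfl]
        push_cast
        rw [one_mul, one_mul, ← h2]; ring
      · refine ⟨2, by norm_num, fun q hq => ⟨(s : ZMod q), ?_⟩⟩
        have h2 := congrArg (fun z : ℕ => (z : ZMod q)) h1
        push_cast at h2
        rw [pow_red (mem_Qs hq).1 hLM0 (Qs_dvd hGD hq) hk, pow_red (mem_Qs hq).1 hLM0 (Qs_dvd hGD hq) hn] at h2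
        rw [← hκ, ← hν] at h2
        rw [show sβ 2 = -1 from rfl, show sρ 2 = -1 from rfl]
        push_cast
        rw [← h2]; ring
    obtain ⟨σ, hσ, hσq⟩ := key
    refine ⟨(l, k₀, κ, ν, σ), ?_, ?_⟩
    · rw [mem_filter, hΘ, mem_product, mem_product, mem_product, mem_product, mem_Icc, mem_Icc,
        mem_Icc, mem_Icc, mem_range]
      refine ⟨⟨⟨hl1, Nat.le_floor hlL⟩, ⟨hk01, Nat.le_floor (hkK.trans hK2)⟩,
        ⟨Nat.le_add_left 1 _, hκX⟩, ⟨Nat.le_add_left 1 _, hνX⟩, hσ⟩, ?_⟩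
      refine ⟨hlp, Nat.le_add_left 1 _, hcard, ?_⟩
      intro q hq
      show 400 * (Nat.gcd κ (q - 1)) ^ 2 ≤ q
      rw [hκ, gcd_red hLM0 (Qs_dvd hGD hq) hk]
      exact gcd_small num hGD hl1 hlL hgcd hk09 hk01 hq
    · unfold FS
      rw [mem_filter, mem_Icc]
      exact ⟨⟨hc1, hcN⟩, hσq⟩
  have hcardU : ((({1} : Finset ℕ) ∪ (Θ.filter (Good b t γ DD)).biUnion (FS N b t DD)).card : ℝ)
      ≤ 1 + (Lam * (Real.exp t * (X * (X * 3)))) * (2 * Real.exp ((1 - γ1) * u)) := by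
    have h1 : ((({1} : Finset ℕ) ∪ (Θ.filter (Good b t γ DD)).biUnion (FS N b t DD)).card : ℝ)
        ≤ 1 + ∑ θ ∈ Θ.filter (Good b t γ DD), ((FS N b t DD θ).card : ℝ) := by
      have h2 : (({1} : Finset ℕ) ∪ (Θ.filter (Good b t γ DD)).biUnion (FS N b t DD)).card
          ≤ 1 + ∑ θ ∈ Θ.filter (Good b t γ DD), (FS N b t DD θ).card := by
        refine (card_union_le _ _).trans ?_
        rw [card_singleton]
        exact Nat.add_le_add_left card_biUnion_le _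
      exact_mod_cast h2
    refine h1.trans ?_
    have h3 : ∑ θ ∈ Θ.filter (Good b t γ DD), ((FS N b t DD θ).card : ℝ)
        ≤ ∑ _θ ∈ Θ.filter (Good b t γ DD), (2 * Real.exp ((1 - γ1) * u)) := by
      apply Finset.sum_le_sum
      intro θ hθ
      exact FS_card hL hM num hγ hγ1 hg1 hg2 hNe DD θ (mem_filter.mp hθ).2
    rw [Finset.sum_const, nsmul_eq_mul] at h3
    have h4 : ((Θ.filter (Good b t γ DD)).card : ℝ) ≤ Lam * (Real.exp t * (X * (X * 3))) := by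
      refine le_trans ?_ hΘc
      exact_mod_cast card_filter_le _ _
    have h5 : ((Θ.filter (Good b t γ DD)).card : ℝ) * (2 * Real.exp ((1 - γ1) * u))
        ≤ (Lam * (Real.exp t * (X * (X * 3)))) * (2 * Real.exp ((1 - γ1) * u)) :=
      mul_le_mul_of_nonneg_right h4 (by positivity)
    linarith
  have hfin := count_num num hγ1 hg2 hLam
  have h1 : (MP_2738db_nt_U.Exc N b (u ^ (1 / ε)) (Real.exp (u ^ (1 - ε)))).ncard
      ≤ (({1} : Finset ℕ) ∪ (Θ.filter (Good b t γ DD)).biUnion (FS N b t DD)).card := by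
    have := Set.ncard_le_ncard hincl (Finset.finite_toSet _)
    rwa [Set.ncard_coe_finset] at this
  have h2 : ((MP_2738db_nt_U.Exc N b (u ^ (1 / ε)) (Real.exp (u ^ (1 - ε)))).ncard : ℝ)
      ≤ ((({1} : Finset ℕ) ∪ (Θ.filter (Good b t γ DD)).biUnion (FS N b t DD)).card : ℝ) := by
    exact_mod_cast h1
  have h3 : (N : ℝ) ^ (1 - γ1 / 2) = Real.exp ((1 - γ1 / 2) * u) := by
    rw [hNe, ← Real.exp_mul, mul_comm]
  rw [h3]
  exact h2.trans (hcardU.trans hfin)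

end Pool.Agent.Work.MP_2738db_nt_Z.helper40
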