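import Pool.Agent.Work.MP_2738db_nt_U_helper40.Num
import Pool.Agent.Work.MP_2738db_nt_Z.Interface

set_option autoImplicit false

namespace Pool.Agent.Work.MP_2738db_nt_Z.helper40

open Finset Filter
open Pool.Agent.Work.MP_2738db_nt_U.helper40 (ev_pow ev_log ev_exp)

/-- all numerical facts -/
structure NumZ (ε C T1 T2 γ γ1 : ℝ) (j A : ℕ) (u t y Lam : ℝ) : Prop where
  u1 : 3 ≤ u
  t4 : 4 ≤ t
  tT1 : T1 ≤ t
  tT2 : T2 ≤ t
  y3 : 3 ≤ y
  ty : t ^ (1 + ε / 4) ≤ y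
  yA : y ≤ t ^ A
  LA : Lam ≤ t ^ A
  hk : u ^ (1 - ε) ≤ t ^ (1 - ε / 2)
  hd : 2 * Lam * Real.exp (t / 40) ≤ Real.exp (t / 2)
  he : 512 * t ≤ Real.exp (t / 20)
  hg : 3200 * Lam ≤ Real.exp (t / 8)
  hb : 4 * u ^ j ≤ Real.exp (γ * t)
  hr : 72 * u ^ 2 ≤ Real.exp (γ * t / 2)
  ht : 16 * t ≤ u
  hi : ∀ l : ℕ, Lam < l → C * u ^ (4 * j) * (1 + Real.log l) ^ 2 < l
  hS : 2 + ((4 * j + 1) * Real.log u + (3 * t + 6 * y)) ≤ γ1 / 4 * u
  hf : 2 ≤ γ1 / 4 * u

theorem numericZ (ε C T1 T2 γ γ1 : ℝ) (hε0 : 0 < ε) (hε1 : ε < 1) (hγ : 0 < γ) (hγ1 : 0 < γ1)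
    (j A : ℕ) (hA : 8 * j + 4 ≤ A) :
    ∃ u0 : ℝ, ∀ u : ℝ, u0 ≤ u →
      NumZ ε C T1 T2 γ γ1 j A u (u ^ (1 - ε / 2)) (u ^ (1 - ε / 4)) (u ^ (4 * j + 1)) := by
  have hs : 0 < 1 - ε / 2 := by linarith
  -- the threshold for `l`
  have hl : ∀ᶠ x : ℝ in atTop, |C| * (1 + Real.log x) ^ 2 < x ^ (1 / (4 * j + 1 : ℝ)) := by
    have hb : 0 < 1 / (4 * j + 1 : ℝ) / 4 := by positivity
    have h1 := ev_log (2 * (|C| + 1)) hb
    filter_upwards [h1, eventually_ge_atTop (Real.exp 1)] with x hx hx1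
    have hx0 : 0 < x := lt_of_lt_of_le (Real.exp_pos _) hx1
    have hlx : 1 ≤ Real.log x := by rwa [Real.le_log_iff_exp_le hx0]
    have h2 : (|C| + 1) * (1 + Real.log x) ≤ x ^ (1 / (4 * j + 1 : ℝ) / 4) := by
      refine le_trans ?_ hx
      nlinarith [abs_nonneg C]
    have h3 : ((|C| + 1) * (1 + Real.log x)) ^ 2 ≤ x ^ (1 / (4 * j + 1 : ℝ) / 2) := by
      calc ((|C| + 1) * (1 + Real.log x)) ^ 2 ≤ (x ^ (1 / (4 * j + 1 : ℝ) / 4)) ^ 2 :=
            pow_le_pow_left₀ (by positivity) h2 2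
        _ = _ := by
            rw [← Real.rpow_natCast, ← Real.rpow_mul hx0.le]
            congr 1; push_cast; ring
    have hx1' : 1 < x := lt_of_lt_of_le (by
      have := Real.add_one_lt_exp (show (1 : ℝ) ≠ 0 by norm_num); linarith) hx1
    have h4 : x ^ (1 / (4 * j + 1 : ℝ) / 2) < x ^ (1 / (4 * j + 1 : ℝ)) := by
      apply Real.rpow_lt_rpow_of_exponent_lt hx1'
      have : 0 < 1 / (4 * j + 1 : ℝ) := by positivity
      linarith
    have h5 : |C| * (1 + Real.log x) ^ 2 ≤ ((|C| + 1) * (1 + Real.log x)) ^ 2 := by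
      rw [mul_pow]
      apply mul_le_mul_of_nonneg_right _ (by positivity)
      nlinarith [abs_nonneg C]
    linarith
  obtain ⟨x0, hx0⟩ := eventually_atTop.mp hl
  have e1 := (tendsto_rpow_atTop hs).eventually_ge_atTop (max 4 (max T1 T2))
  have e2 := ev_pow 3 (show (0 : ℝ) < 1 - ε / 4 by linarith)
  have e4 := ev_exp (4 * j + 1) 2 hs (show (0 : ℝ) < 1 / 2 - 1 / 40 by norm_num)
  have e5 := ev_exp (1 - ε / 2) 512 hs (show (0 : ℝ) < 1 / 20 by norm_num)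
  have e6 := ev_exp (4 * j + 1) 3200 hs (show (0 : ℝ) < 1 / 8 by norm_num)
  have e7 := ev_exp j 4 hs hγ
  have e8 := ev_exp 2 72 hs (show (0 : ℝ) < γ / 2 by positivity)
  have e9 := ev_pow 16 (show 1 - ε / 2 < 1 by linarith)
  have e10 := ev_log (16 * (4 * j + 1) / γ1) (show (0 : ℝ) < 1 by norm_num)
  have e11 := ev_pow (48 / γ1) (show 1 - ε / 2 < 1 by linarith)
  have e12 := ev_pow (96 / γ1) (show 1 - ε / 4 < 1 by linarith)
  have e13 := eventually_ge_atTop (max 3 (max x0 (32 / γ1)))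
  obtain ⟨u0, hu0⟩ := eventually_atTop.mp (e1.and (e2.and (e4.and (e5.and (e6.and
    (e7.and (e8.and (e9.and (e10.and (e11.and (e12.and e13)))))))))))
  refine ⟨u0, fun u hu => ?_⟩
  obtain ⟨f1, f2, f4, f5, f6, f7, f8, f9, f10, f11, f12, f13⟩ := hu0 u hu
  have hu3 : 3 ≤ u := (le_max_left _ _).trans f13
  have hu0' : 0 < u := by linarith
  have hu1 : 1 ≤ u := by linarith
  have hux0 : x0 ≤ u := (le_max_left _ _).trans ((le_max_right _ _).trans f13)
  have hux1 : 32 / γ1 ≤ u := (le_max_right _ _).trans ((le_max_right _ _).trans f13)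
  rw [Real.rpow_one] at f9 f10 f11 f12
  have hcast : (u : ℝ) ^ (4 * j + 1 : ℕ) = u ^ (4 * (j : ℝ) + 1) := by
    rw [← Real.rpow_natCast]; push_cast; rfl
  have hAr : 8 * (j : ℝ) + 4 ≤ A := by exact_mod_cast hA
  have hpowA : u ^ (4 * (j : ℝ) + 2) ≤ (u ^ (1 - ε / 2)) ^ A := by
    rw [← Real.rpow_natCast, ← Real.rpow_mul hu0'.le]
    apply Real.rpow_le_rpow_of_exponent_le hu1
    have : (1 / 2 : ℝ) * (8 * j + 4) ≤ (1 - ε / 2) * A :=
      mul_le_mul (by linarith) hAr (by positivity) (by linarith)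
    linarith
  constructor
  · exact hu3
  · exact (le_max_left _ _).trans f1
  · exact (le_max_left _ _).trans ((le_max_right _ _).trans f1)
  · exact (le_max_right _ _).trans ((le_max_right _ _).trans f1)
  · rw [Real.rpow_zero] at f2
    linarith
  · rw [← Real.rpow_mul hu0'.le]
    apply Real.rpow_le_rpow_of_exponent_le hu1
    nlinarith
  · refine le_trans ?_ hpowA
    apply Real.rpow_le_rpow_of_exponent_le hu1
    have : (0 : ℝ) ≤ j := Nat.cast_nonneg j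
    linarith
  · refine le_trans ?_ hpowA
    rw [hcast]
    apply Real.rpow_le_rpow_of_exponent_le hu1
    linarith
  · rw [← Real.rpow_mul hu0'.le]
    apply Real.rpow_le_rpow_of_exponent_le hu1
    nlinarith
  · rw [hcast]
    calc 2 * u ^ (4 * (j : ℝ) + 1) * Real.exp (u ^ (1 - ε / 2) / 40)
        ≤ Real.exp ((1 / 2 - 1 / 40) * u ^ (1 - ε / 2)) * Real.exp (u ^ (1 - ε / 2) / 40) :=
          mul_le_mul_of_nonneg_right f4 (Real.exp_pos _).le
      _ = Real.exp (u ^ (1 - ε / 2) / 2) := by rw [← Real.exp_add]; congr 1; ring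
  · refine f5.trans (le_of_eq ?_)
    congr 1; ring
  · rw [hcast]
    refine f6.trans (le_of_eq ?_)
    congr 1; ring
  · rw [← Real.rpow_natCast]
    exact f7
  · rw [← Real.rpow_natCast]
    push_cast
    refine f8.trans (le_of_eq ?_)
    congr 1; ring
  · exact f9
  · intro l hl
    have hl0 : (0 : ℝ) < l := lt_trans (by positivity) hl
    have hlu : u ≤ l := by
      have h1 : u ^ (1 : ℕ) ≤ u ^ (4 * j + 1 : ℕ) := pow_le_pow_right₀ hu1 (by omega)
      rw [pow_one] at h1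
      linarith
    have h1 := hx0 l (hux0.trans hlu)
    have h2 : u ^ (4 * j : ℕ) ≤ (l : ℝ) ^ ((4 * j : ℝ) / (4 * j + 1)) := by
      have h3 : u ≤ (l : ℝ) ^ (1 / (4 * j + 1 : ℝ)) := by
        have h4 : (u ^ (4 * j + 1 : ℕ)) ^ (1 / (4 * j + 1 : ℝ)) ≤ (l : ℝ) ^ (1 / (4 * j + 1 : ℝ)) :=
          Real.rpow_le_rpow (by positivity) hl.le (by positivity)
        have h5 : (u ^ (4 * j + 1 : ℕ)) ^ (1 / (4 * j + 1 : ℝ)) = u := by
          rw [← Real.rpow_natCast, ← Real.rpow_mul hu0'.le]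
          push_cast
          rw [mul_one_div_cancel (by positivity), Real.rpow_one]
        rwa [h5] at h4
      calc u ^ (4 * j : ℕ) ≤ ((l : ℝ) ^ (1 / (4 * j + 1 : ℝ))) ^ (4 * j : ℕ) :=
            pow_le_pow_left₀ hu0'.le h3 _
        _ = _ := by
            rw [← Real.rpow_natCast, ← Real.rpow_mul hl0.le]
            congr 1; push_cast; field_simp
    have h6 : C * u ^ (4 * j) * (1 + Real.log l) ^ 2
        ≤ (l : ℝ) ^ ((4 * j : ℝ) / (4 * j + 1)) * (|C| * (1 + Real.log l) ^ 2) := by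
      calc C * u ^ (4 * j) * (1 + Real.log l) ^ 2 ≤ |C| * u ^ (4 * j) * (1 + Real.log l) ^ 2 := by
            gcongr
            exact le_abs_self C
        _ = u ^ (4 * j) * (|C| * (1 + Real.log l) ^ 2) := by ring
        _ ≤ _ := mul_le_mul_of_nonneg_right h2 (by positivity)
    have h7 : (l : ℝ) ^ ((4 * j : ℝ) / (4 * j + 1)) * (|C| * (1 + Real.log l) ^ 2)
        < (l : ℝ) ^ ((4 * j : ℝ) / (4 * j + 1)) * (l : ℝ) ^ (1 / (4 * j + 1 : ℝ)) :=
      mul_lt_mul_of_pos_left h1 (Real.rpow_pos_of_pos hl0 _)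
    have h8 : (l : ℝ) ^ ((4 * j : ℝ) / (4 * j + 1)) * (l : ℝ) ^ (1 / (4 * j + 1 : ℝ)) = l := by
      rw [← Real.rpow_add hl0, ← add_div, div_self (by positivity), Real.rpow_one]
    linarith
  · have g1 : (4 * j + 1) * Real.log u ≤ γ1 / 16 * u := by
      have h1 : γ1 / 16 * (16 * (4 * j + 1) / γ1 * Real.log u) ≤ γ1 / 16 * u :=
        mul_le_mul_of_nonneg_left f10 (by positivity)
      refine le_trans (le_of_eq ?_) h1
      field_simp
    have g2 : 3 * u ^ (1 - ε / 2) ≤ γ1 / 16 * u := by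
      have h1 : γ1 / 16 * (48 / γ1 * u ^ (1 - ε / 2)) ≤ γ1 / 16 * u :=
        mul_le_mul_of_nonneg_left f11 (by positivity)
      refine le_trans (le_of_eq ?_) h1
      field_simp; norm_num
    have g3 : 6 * u ^ (1 - ε / 4) ≤ γ1 / 16 * u := by
      have h1 : γ1 / 16 * (96 / γ1 * u ^ (1 - ε / 4)) ≤ γ1 / 16 * u :=
        mul_le_mul_of_nonneg_left f12 (by positivity)
      refine le_trans (le_of_eq ?_) h1
      field_simp; norm_num
    have g4 : 2 ≤ γ1 / 16 * u := by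
      have h1 : γ1 / 16 * (32 / γ1) ≤ γ1 / 16 * u := mul_le_mul_of_nonneg_left hux1 (by positivity)
      refine le_trans (le_of_eq ?_) h1
      field_simp; norm_num
    have g5 : γ1 / 4 * u = γ1 / 16 * u + (γ1 / 16 * u + (γ1 / 16 * u + γ1 / 16 * u)) := by ring
    rw [g5]
    exact add_le_add g4 (add_le_add g1 (add_le_add g2 g3))
  · have h1 : γ1 / 16 * (32 / γ1) ≤ γ1 / 16 * u := mul_le_mul_of_nonneg_left hux1 (by positivity)
    have h2 : γ1 / 16 * (32 / γ1) = 2 := by field_simp; norm_num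
    have h3 : 0 ≤ γ1 / 16 * u := by positivity
    linarith

/-- the size of one set of the union bound -/
lemma set_num {ε C T1 T2 γ γ1 : ℝ} {j A : ℕ} {u t y Lam : ℝ}
    (num : NumZ ε C T1 T2 γ γ1 j A u t y Lam) (hγ : 0 < γ) (hγ1 : 0 < γ1) (hg1 : γ1 ≤ γ / 32)
    (hg2 : γ1 ≤ 1 / 2)
    {Qc : ℝ} (hQ : Real.exp (γ * t) / 2 ≤ Qc) {z : ℕ} (hz : (z : ℝ) ≤ Real.exp t) :
    1 ≤ ⌊u / (8 * t)⌋₊ ∧
    Real.exp u * (36 * (⌊u / (8 * t)⌋₊ : ℝ) ^ 2 / Qc) ^ ⌊u / (8 * t)⌋₊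
      + (36 * (z : ℝ) ^ 2) ^ ⌊u / (8 * t)⌋₊ ≤ 2 * Real.exp ((1 - γ1) * u) := by
  have ht4 := num.t4
  have hu3 := num.u1
  have ht := num.ht
  have ht0 : 0 < t := by linarith
  have h8 : 0 < 8 * t := by linarith
  have hr1 : 1 ≤ ⌊u / (8 * t)⌋₊ := by
    apply Nat.le_floor
    rw [Nat.cast_one, le_div_iff₀ h8]
    linarith
  refine ⟨hr1, ?_⟩
  set r := ⌊u / (8 * t)⌋₊ with hr
  have hru : (r : ℝ) ≤ u / (8 * t) := Nat.floor_le (by positivity)
  have hrl : u / (8 * t) < r + 1 := Nat.lt_floor_add_one _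
  have htr : t * r ≤ u / 8 := by
    rw [le_div_iff₀ h8] at hru
    linarith
  have htr' : u / 16 ≤ t * r := by
    rw [div_lt_iff₀ h8] at hrl
    nlinarith
  have hru' : (r : ℝ) ≤ u := by
    refine hru.trans ?_
    rw [div_le_iff₀ h8]
    nlinarith
  have hQ0 : 0 < Qc := lt_of_lt_of_le (by positivity) hQ
  have a1 : 36 * (r : ℝ) ^ 2 / Qc ≤ Real.exp (-(γ * t / 2)) := by
    rw [div_le_iff₀ hQ0]
    have h1 : 36 * (r : ℝ) ^ 2 ≤ 36 * u ^ 2 := by gcongr
    have h2 : Real.exp (-(γ * t / 2)) * (Real.exp (γ * t) / 2) ≤ Real.exp (-(γ * t / 2)) * Qc :=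
      mul_le_mul_of_nonneg_left hQ (Real.exp_pos _).le
    have h3 : Real.exp (-(γ * t / 2)) * (Real.exp (γ * t) / 2) = Real.exp (γ * t / 2) / 2 := by
      rw [mul_div_assoc', ← Real.exp_add]; congr 2; ring
    have h4 := num.hr
    linarith
  have a2 : (36 * (r : ℝ) ^ 2 / Qc) ^ r ≤ Real.exp (-(γ / 32 * u)) := by
    calc (36 * (r : ℝ) ^ 2 / Qc) ^ r ≤ (Real.exp (-(γ * t / 2))) ^ r :=
          pow_le_pow_left₀ (by positivity) a1 r
      _ = Real.exp (-(γ / 2 * (t * r))) := by rw [← Real.exp_nat_mul]; congr 1; ring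
      _ ≤ _ := by
          apply Real.exp_le_exp.mpr
          have := mul_le_mul_of_nonneg_left htr' (show 0 ≤ γ / 2 by positivity)
          linarith
  have a3 : 36 * (z : ℝ) ^ 2 ≤ Real.exp (3 * t) := by
    have h1 : (36 : ℝ) ≤ Real.exp t := by
      have h2 : Real.exp 4 ≤ Real.exp t := Real.exp_le_exp.mpr ht4
      have h3 : Real.exp 4 = Real.exp 1 * Real.exp 1 * (Real.exp 1 * Real.exp 1) := by
        rw [← Real.exp_add, ← Real.exp_add]; norm_num
      have h4 : (2.7 : ℝ) < Real.exp 1 := by have := Real.exp_one_gt_d9; linarith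
      have h5 : (7.2 : ℝ) ≤ Real.exp 1 * Real.exp 1 := by nlinarith
      have h6 : (36 : ℝ) ≤ Real.exp 1 * Real.exp 1 * (Real.exp 1 * Real.exp 1) := by nlinarith
      linarith
    calc 36 * (z : ℝ) ^ 2 ≤ Real.exp t * (Real.exp t) ^ 2 := by
          apply mul_le_mul h1 _ (by positivity) (Real.exp_pos _).le
          exact pow_le_pow_left₀ (by positivity) hz 2
      _ = Real.exp (3 * t) := by rw [← Real.exp_nat_mul, ← Real.exp_add]; congr 1; push_cast; ring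
  have a4 : (36 * (z : ℝ) ^ 2) ^ r ≤ Real.exp (3 / 8 * u) := by
    calc (36 * (z : ℝ) ^ 2) ^ r ≤ (Real.exp (3 * t)) ^ r := pow_le_pow_left₀ (by positivity) a3 r
      _ = Real.exp (3 * (t * r)) := by rw [← Real.exp_nat_mul]; congr 1; ring
      _ ≤ _ := by
          apply Real.exp_le_exp.mpr
          linarith
  have b1 : Real.exp u * (36 * (r : ℝ) ^ 2 / Qc) ^ r ≤ Real.exp ((1 - γ1) * u) := by
    calc Real.exp u * (36 * (r : ℝ) ^ 2 / Qc) ^ r ≤ Real.exp u * Real.exp (-(γ / 32 * u)) :=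
          mul_le_mul_of_nonneg_left a2 (Real.exp_pos _).le
      _ ≤ _ := by
          rw [← Real.exp_add]
          apply Real.exp_le_exp.mpr
          nlinarith
  have b2 : (36 * (z : ℝ) ^ 2) ^ r ≤ Real.exp ((1 - γ1) * u) := by
    refine a4.trans ?_
    apply Real.exp_le_exp.mpr
    nlinarith
  linarith

end Pool.Agent.Work.MP_2738db_nt_Z.helper40
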